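import Pool.Agent.J6H59.AC.P1b

/-!
(P1a) The half-branches `t ↦ Z(t)^N` are analytic arcs.
-/

set_option autoImplicit false

open Metric Set Filter Topology Complex

namespace Pool.Agent.J6H59.AC

open Pool.Agent.J6H15.AC

/-- the principal square root -/
noncomputable def sq (u : ℂ) : ℂ := u ^ (((2 : ℕ) : ℂ)⁻¹)

theorem sq_sq (u : ℂ) : sq u ^ 2 = u := Complex.cpow_nat_inv_pow u (by norm_num)

theorem sq_norm (u : ℂ) : ‖sq u‖ = Real.sqrt ‖u‖ := by
  have h : ‖sq u‖ ^ 2 = ‖u‖ := by rw [← norm_pow, sq_sq]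
  rw [← h, Real.sqrt_sq (norm_nonneg _)]

theorem sq_tendsto : Tendsto sq (𝓝 0) (𝓝 0) := by
  rw [tendsto_zero_iff_norm_tendsto_zero]
  have h : (fun u => ‖sq u‖) = fun u => Real.sqrt ‖u‖ := funext sq_norm
  rw [h]
  have h2 : ContinuousAt (fun u : ℂ => Real.sqrt ‖u‖) 0 := by fun_prop
  have := h2.tendsto
  simpa using this

/-- an even germ is a function of the square -/
theorem even_descend {f : ℂ → ℂ} (hf : AnalyticAt ℂ f 0) (he : ∀ᶠ y in 𝓝 (0 : ℂ), f (-y) = f y) :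
    ∃ E : ℂ → ℂ, AnalyticAt ℂ E 0 ∧ ∀ᶠ y in 𝓝 (0 : ℂ), f y = E (y ^ 2) := by
  obtain ⟨ρ, hρ, hb⟩ := Metric.eventually_nhds_iff_ball.1 (hf.eventually_analyticAt.and he)
  have hsgn : ∀ a b : ℂ, a ∈ ball (0 : ℂ) ρ → a ^ 2 = b ^ 2 → f a = f b := by
    intro a b ha hab
    rcases sq_eq_sq_iff_eq_or_eq_neg.1 hab with h | h
    · rw [h]
    · have h3 := (hb a ha).2
      rw [← h3, h, neg_neg]
  refine ⟨fun u => f (sq u), ?_, ?_⟩
  · refine Complex.analyticAt_of_differentiable_on_punctured_nhds_of_continuousAt ?_ ?_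
    · have hball : ball (0 : ℂ) (ρ ^ 2) ∈ 𝓝 (0 : ℂ) := ball_mem_nhds _ (by positivity)
      filter_upwards [self_mem_nhdsWithin, nhdsWithin_le_nhds hball] with u0 hu0 hu0b
      have hu0' : u0 ≠ 0 := hu0
      set s0 := sq u0 with hs0
      have hs0ρ : s0 ∈ ball (0 : ℂ) ρ := by
        rw [mem_ball_zero_iff, hs0, sq_norm, Real.sqrt_lt' hρ]
        rwa [mem_ball_zero_iff] at hu0b
      have hs0sq : s0 ^ 2 = u0 := sq_sq u0
      let br : ℂ → ℂ := fun u => s0 * Complex.exp (Complex.log (u / u0) / 2)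
      have hbr0 : br u0 = s0 := by simp [br, div_self hu0']
      have hbrd : DifferentiableAt ℂ br u0 := by
        have h1 : DifferentiableAt ℂ (fun u : ℂ => Complex.log (u / u0)) u0 := by
          refine (differentiableAt_id.div_const u0).clog ?_
          change u0 / u0 ∈ slitPlane
          rw [div_self hu0']
          exact Complex.one_mem_slitPlane
        exact ((h1.div_const 2).cexp).const_mul s0
      have hbrsq : ∀ᶠ u in 𝓝 u0, br u ^ 2 = u := by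
        filter_upwards [(continuousAt_id).eventually_ne hu0'] with u hu
        have hu' : u ≠ 0 := hu
        simp only [br]
        rw [mul_pow, hs0sq, ← Complex.exp_nat_mul]
        push_cast
        rw [mul_div_cancel₀ _ (two_ne_zero), Complex.exp_log (div_ne_zero hu' hu0'),
          mul_div_cancel₀ _ hu0']
      have hbrb : ∀ᶠ u in 𝓝 u0, br u ∈ ball (0 : ℂ) ρ := by
        refine hbrd.continuousAt.eventually_mem (isOpen_ball.mem_nhds ?_)
        rwa [hbr0]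
      have hcongr : (fun u => f (sq u)) =ᶠ[𝓝 u0] fun u => f (br u) := by
        filter_upwards [hbrsq, hbrb] with u h1 h2
        exact (hsgn _ _ h2 (by rw [h1, sq_sq])).symm
      refine DifferentiableAt.congr_of_eventuallyEq ?_ hcongr
      have hfd : DifferentiableAt ℂ f (br u0) := by
        rw [hbr0]
        exact (hb s0 hs0ρ).1.differentiableAt
      exact hfd.comp u0 hbrd
    · have h0 : sq 0 = 0 := by
        have := sq_norm 0
        rw [norm_zero, Real.sqrt_zero, norm_eq_zero] at this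
        exact this
      have hc : ContinuousAt sq 0 := by
        have := sq_tendsto
        unfold ContinuousAt
        rwa [h0]
      have hfc : ContinuousAt f (sq 0) := by
        rw [h0]
        exact hf.continuousAt
      exact ContinuousAt.comp hfc hc
  · filter_upwards [ball_mem_nhds (0 : ℂ) hρ] with y hy
    exact hsgn _ _ hy (by rw [sq_sq])

/-- the square of an odd coordinate is a coordinate in the square -/
theorem odd_square {U : ℂ → ℂ} (hU : AnalyticAt ℂ U 0) (h0 : U 0 = 0) (h1 : deriv U 0 ≠ 0)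
    (ho : ∀ᶠ y in 𝓝 (0 : ℂ), U (-y) = -U y) :
    ∃ E : ℂ → ℂ, AnalyticAt ℂ E 0 ∧ E 0 = 0 ∧ deriv E 0 ≠ 0 ∧
      ∀ᶠ y in 𝓝 (0 : ℂ), U y ^ 2 = E (y ^ 2) := by
  obtain ⟨E, hE, hUE⟩ := even_descend (f := fun y => U y ^ 2) (hU.pow 2) (by
    filter_upwards [ho] with y hy
    rw [hy]; ring)
  have hE0 : E 0 = 0 := by
    have := hUE.self_of_nhds
    simp only [h0] at this
    simpa using this.symm
  refine ⟨E, hE, hE0, ?_, hUE⟩
  have ha := hasDerivAt_iff_tendsto_slope.1 hU.differentiableAt.hasDerivAt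
  have hb := hasDerivAt_iff_tendsto_slope.1 hE.differentiableAt.hasDerivAt
  have hsqt : Tendsto (fun y : ℂ => y ^ 2) (𝓝[≠] 0) (𝓝[≠] 0) := by
    rw [tendsto_nhdsWithin_iff]
    constructor
    · have h : ContinuousAt (fun y : ℂ => y ^ 2) 0 := by fun_prop
      have := h.tendsto
      simp only [ne_eq, OfNat.ofNat_ne_zero, not_false_eq_true, zero_pow] at this
      exact this.mono_left nhdsWithin_le_nhds
    · filter_upwards [self_mem_nhdsWithin] with y hy
      exact pow_ne_zero 2 hy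
  have hc := hb.comp hsqt
  have hd := ha.pow 2
  have heq : (fun y => slope U 0 y ^ 2) =ᶠ[𝓝[≠] 0] (slope E 0 ∘ fun y : ℂ => y ^ 2) := by
    filter_upwards [nhdsWithin_le_nhds hUE, self_mem_nhdsWithin] with y hy hy0
    simp only [Function.comp, slope_def_field, h0, hE0, sub_zero]
    rw [div_pow, hy]
  have := tendsto_nhds_unique (hd.congr' heq) hc
  rw [← this]
  exact pow_ne_zero 2 h1

theorem arc_of_inj {F : ℂ → ℂ} (hF : AnalyticAt ℂ F 0) {ρ : ℝ} (hρ : 0 < ρ)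
    (hinj : InjOn (fun s : ℝ => F s) (Ioo (-ρ) ρ)) :
    ∃ t₀ > 0, ∀ t : ℝ, 0 < t → t < t₀ → IsArc ((fun s : ℝ => F s) '' Icc 0 t) := by
  obtain ⟨ρ1, hρ1, hb⟩ := Metric.eventually_nhds_iff_ball.1 hF.eventually_analyticAt
  refine ⟨min ρ ρ1 / 2, by positivity, fun t ht htt => ?_⟩
  have h1 : t < ρ / 2 := lt_of_lt_of_le htt (by linarith [min_le_left ρ ρ1])
  have h2 : t < ρ1 / 2 := lt_of_lt_of_le htt (by linarith [min_le_right ρ ρ1])
  have hbd : ∀ x ∈ Ioo (-1 : ℝ) 2, |t * x| < 2 * t := by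
    intro x hx
    rw [abs_mul, abs_of_pos ht, mul_comm]
    refine mul_lt_mul_of_pos_right ?_ ht
    rw [abs_lt]
    constructor <;> linarith [hx.1, hx.2]
  refine ⟨-1, 2, fun x => F ((t * x : ℝ) : ℂ), by norm_num, by norm_num, ?_, ?_, ?_⟩
  · intro x hx
    have h3 : AnalyticAt ℂ F ((t * x : ℝ) : ℂ) := by
      refine hb _ ?_
      rw [mem_ball_zero_iff, Complex.norm_real, Real.norm_eq_abs]
      linarith [hbd x hx]
    have h4 : AnalyticAt ℝ (fun x : ℝ => ((t * x : ℝ) : ℂ)) x := by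
      have h5 : AnalyticAt ℝ (fun x : ℝ => t * x) x := analyticAt_const.mul analyticAt_id
      exact AnalyticAt.fun_comp (g := fun y : ℝ => (y : ℂ)) (Complex.ofRealCLM.analyticAt _) h5
    exact AnalyticAt.fun_comp (g := F) (f := fun x : ℝ => ((t * x : ℝ) : ℂ)) h3.restrictScalars h4
  · intro x hx y hy hxy
    have h3 := hbd x hx
    have h4 := hbd y hy
    rw [abs_lt] at h3 h4
    have h5 : t * x = t * y := hinj (show t * x ∈ Ioo (-ρ) ρ from ⟨by linarith, by linarith⟩)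
      (show t * y ∈ Ioo (-ρ) ρ from ⟨by linarith, by linarith⟩) hxy
    exact mul_left_cancel₀ ht.ne' h5
  · ext z
    constructor
    · rintro ⟨s, hs, rfl⟩
      refine ⟨s / t, ⟨div_nonneg hs.1 ht.le, (div_le_one ht).2 hs.2⟩, ?_⟩
      simp only
      rw [mul_div_cancel₀ _ ht.ne']
    · rintro ⟨x, hx, rfl⟩
      exact ⟨t * x, ⟨mul_nonneg ht.le hx.1, by nlinarith [hx.2]⟩, rfl⟩

/-- a tendsto statement along the reals -/
theorem real_ev {p : ℂ → Prop} (h : ∀ᶠ z in 𝓝 (0 : ℂ), p z) : ∀ᶠ s : ℝ in 𝓝 0, p (s : ℂ) := by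
  have h1 : Tendsto (fun s : ℝ => (s : ℂ)) (𝓝 0) (𝓝 0) := by
    have := Complex.continuous_ofReal.tendsto (0 : ℝ)
    rwa [Complex.ofReal_zero] at this
  exact h1.eventually h

theorem exists_omega {Z Y : ℂ → ℂ} (h0 : Z 0 = 0)
    (hYZ : ∀ᶠ x in 𝓝 (0 : ℂ), Y (Z x) = x) {N : ℕ} (hN : 0 < N)
    (hni : ∀ ρ > 0, ¬ InjOn (fun s : ℝ => Z s ^ N) (Ioo (-ρ) ρ)) :
    ∃ ω : ℂ, ω ^ N = 1 ∧ ω ≠ 1 ∧ ∃ᶠ s : ℝ in 𝓝[≠] 0, (Y (ω * Z s)).im = 0 := by
  by_contra hcon
  push Not at hcon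
  have hall : ∀ᶠ s : ℝ in 𝓝[≠] 0, ∀ ω ∈ Polynomial.nthRootsFinset N (1 : ℂ),
      ω ≠ 1 → (Y (ω * Z s)).im ≠ 0 := by
    rw [Filter.eventually_all_finset]
    intro ω hω
    by_cases h1 : ω = 1
    · exact Eventually.of_forall fun s hs => absurd h1 hs
    · have := hcon ω ((Polynomial.mem_nthRootsFinset hN _).1 hω) h1
      filter_upwards [this] with s hs _ using hs
  rw [eventually_nhdsWithin_iff] at hall
  obtain ⟨ρ, hρ, hb⟩ := Metric.eventually_nhds_iff_ball.1 (hall.and (real_ev hYZ))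
  refine hni ρ hρ ?_
  have hball : ∀ s ∈ Ioo (-ρ) ρ, s ∈ ball (0 : ℝ) ρ := by
    intro s hs
    rw [mem_ball_zero_iff, Real.norm_eq_abs, abs_lt]
    exact hs
  intro s hs s' hs' heq
  have heq' : Z s ^ N = Z s' ^ N := heq
  obtain ⟨-, hY1⟩ := hb s (hball s hs)
  obtain ⟨hA, hY2⟩ := hb s' (hball s' hs')
  by_cases hz : Z s' = 0
  · have hz2 : Z s = 0 := by
      rw [hz, zero_pow hN.ne'] at heq'
      exact pow_eq_zero_iff (hN.ne') |>.1 heq'
    have h3 : (s : ℂ) = s' := by rw [← hY1, ← hY2, hz, hz2]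
    exact_mod_cast h3
  · by_contra hne
    have hs0 : s' ≠ 0 := by
      rintro rfl
      exact hz (by rw [Complex.ofReal_zero, h0])
    refine hA hs0 (Z s / Z s') ((Polynomial.mem_nthRootsFinset hN _).2 ?_) ?_ ?_
    · rw [div_pow, heq', div_self (pow_ne_zero _ hz)]
    · intro h
      rw [div_eq_one_iff_eq hz] at h
      apply hne
      have h3 : (s : ℂ) = s' := by rw [← hY1, ← hY2, h]
      exact_mod_cast h3
    · rw [div_mul_cancel₀ _ hz, hY1, Complex.ofReal_im]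

theorem invol {Z Y : ℂ → ℂ} (hZ : AnalyticAt ℂ Z 0) (h0 : Z 0 = 0) (h1 : deriv Z 0 ≠ 0)
    (hY : AnalyticAt ℂ Y 0) (hYd : deriv Y 0 = (deriv Z 0)⁻¹) {ω : ℂ}
    (hω : ∃ᶠ s : ℝ in 𝓝[≠] 0, (Y (ω * Z s)).im = 0) :
    (∀ᶠ s : ℝ in 𝓝 0, (Y (ω * Z s)).im = 0) ∧ ω.im = 0 := by
  have hg : AnalyticAt ℂ (fun z => Y (ω * Z z)) 0 := by
    refine AnalyticAt.fun_comp (g := Y) ?_ (analyticAt_const.mul hZ)
    rw [h0, mul_zero]
    exact hY
  have hg2 : AnalyticAt ℝ (fun s : ℝ => (Y (ω * Z s)).im) 0 := by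
    have hg' : AnalyticAt ℂ (fun z => Y (ω * Z z)) ((0 : ℝ) : ℂ) := by
      rwa [Complex.ofReal_zero]
    exact hg'.im_ofReal
  have hev := hg2.frequently_zero_iff_eventually_zero.1 hω
  refine ⟨hev, ?_⟩
  have hd : HasDerivAt (fun z => Y (ω * Z z)) ω 0 := by
    have e1 : HasDerivAt (fun z => ω * Z z) (ω * deriv Z 0) 0 :=
      hZ.differentiableAt.hasDerivAt.const_mul ω
    have e2 : HasDerivAt Y (deriv Y 0) (ω * Z 0) := by
      rw [h0, mul_zero]
      exact hY.differentiableAt.hasDerivAt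
    have e3 := e2.comp (0 : ℂ) e1
    have e4 : deriv Y 0 * (ω * deriv Z 0) = ω := by
      rw [hYd]
      field_simp
    rw [e4] at e3
    exact e3
  have hd2 : HasDerivAt (fun z => -I * Y (ω * Z z)) (-I * ω) ((0 : ℝ) : ℂ) := by
    rw [Complex.ofReal_zero]
    exact hd.const_mul (-I)
  have hd3 := hd2.real_of_complex
  have hev2 : (fun x : ℝ => (-I * Y (ω * Z x)).re) =ᶠ[𝓝 0] fun _ => (0 : ℝ) := by
    filter_upwards [hev] with x hx
    simp [hx]
  have hd4 := (hd3.congr_of_eventuallyEq hev2.symm).unique (hasDerivAt_const (0 : ℝ) (0 : ℝ))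
  simpa using hd4

theorem reduce {Z : ℂ → ℂ} (hZ : AnalyticAt ℂ Z 0) (h0 : Z 0 = 0) (h1 : deriv Z 0 ≠ 0)
    {Y : ℂ → ℂ} (hY : AnalyticAt ℂ Y 0) (hY0 : Y 0 = 0) (hYd : deriv Y 0 = (deriv Z 0)⁻¹)
    (hYZ : ∀ᶠ x in 𝓝 (0 : ℂ), Y (Z x) = x) (hZY : ∀ᶠ y in 𝓝 (0 : ℂ), Z (Y y) = y)
    (hre : ∀ᶠ s : ℝ in 𝓝 0, (Y (-Z s)).im = 0) :
    ∃ (E : ℂ → ℂ) (κ : ℝ → ℝ), AnalyticAt ℂ E 0 ∧ E 0 = 0 ∧ deriv E 0 ≠ 0 ∧ κ 0 = 0 ∧
      HasStrictDerivAt κ 1 0 ∧ ∀ᶠ s : ℝ in 𝓝 0, Z s ^ 2 = E ((κ s ^ 2 : ℝ) : ℂ) := by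
  set φ : ℂ → ℂ := fun z => Y (-Z z) with hφdef
  have hφ : AnalyticAt ℂ φ 0 := by
    refine AnalyticAt.fun_comp (g := Y) ?_ hZ.neg
    simp only [h0, neg_zero]
    exact hY
  have hφ0 : φ 0 = 0 := by simp only [hφdef, h0, neg_zero, hY0]
  have hφd : HasDerivAt φ (-1) 0 := by
    have e1 : HasDerivAt (fun z => -Z z) (-deriv Z 0) 0 := hZ.differentiableAt.hasDerivAt.neg
    have e2 : HasDerivAt Y (deriv Y 0) (-Z 0) := by
      rw [h0, neg_zero]
      exact hY.differentiableAt.hasDerivAt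
    have e3 := e2.comp (0 : ℂ) e1
    have e4 : deriv Y 0 * (-deriv Z 0) = -1 := by
      rw [hYd]
      field_simp
    rw [e4] at e3
    exact e3
  have hφt : Tendsto φ (𝓝 0) (𝓝 0) := by
    have := hφ.continuousAt.tendsto
    rwa [hφ0] at this
  have hZt : Tendsto (fun z => -Z z) (𝓝 0) (𝓝 0) := by
    have := hZ.continuousAt.tendsto.neg
    rwa [h0, neg_zero] at this
  have hZφ : ∀ᶠ x in 𝓝 (0 : ℂ), Z (φ x) = -Z x := hZt.eventually hZY
  have hφφ : ∀ᶠ x in 𝓝 (0 : ℂ), φ (φ x) = x := by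
    filter_upwards [hZφ, hYZ] with x e1 e2
    change Y (-Z (φ x)) = x
    rw [e1, neg_neg, e2]
  set w : ℂ → ℂ := fun z => (z - φ z) / 2 with hwdef
  have hw : AnalyticAt ℂ w 0 := (analyticAt_id.sub hφ).div_const
  have hw0 : w 0 = 0 := by simp [hwdef, hφ0]
  have hwd : HasDerivAt w 1 0 := by
    have := ((hasDerivAt_id (0 : ℂ)).sub hφd).div_const 2
    have e : ((1 : ℂ) - -1) / 2 = 1 := by norm_num
    rw [e] at this
    exact this
  obtain ⟨V, hV, hV0, hVd, hVw, hwV⟩ := exists_inv hw hw0 (by rw [hwd.deriv]; exact one_ne_zero)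
  have hVt : Tendsto V (𝓝 0) (𝓝 0) := by
    have := hV.continuousAt.tendsto
    rwa [hV0] at this
  have hU : AnalyticAt ℂ (fun y => Z (V y)) 0 := by
    refine AnalyticAt.fun_comp (g := Z) ?_ hV
    rwa [hV0]
  have hU1 : deriv (fun y => Z (V y)) 0 ≠ 0 := by
    have e2 : HasDerivAt Z (deriv Z 0) (V 0) := by
      rw [hV0]
      exact hZ.differentiableAt.hasDerivAt
    have e3 := e2.comp (0 : ℂ) hV.differentiableAt.hasDerivAt
    have e4 : deriv (fun y => Z (V y)) 0 = deriv Z 0 * deriv V 0 := e3.deriv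
    rw [e4, hVd, hwd.deriv]
    simpa using h1
  have hVneg : ∀ᶠ y in 𝓝 (0 : ℂ), V (-y) = φ (V y) := by
    filter_upwards [hwV, hVt.eventually hφφ, (hφt.comp hVt).eventually hVw] with y e1 e2 e3
    simp only [Function.comp] at e3
    have e4 : w (φ (V y)) = -y := by
      change (φ (V y) - φ (φ (V y))) / 2 = -y
      rw [e2]
      have e5 : (V y - φ (V y)) / 2 = y := e1
      linear_combination -e5
    rw [← e4, e3]
  have hodd : ∀ᶠ y in 𝓝 (0 : ℂ), Z (V (-y)) = -Z (V y) := by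
    filter_upwards [hVneg, hVt.eventually hZφ] with y e1 e2
    rw [e1, e2]
  obtain ⟨E, hE, hE0, hE1, hEU⟩ := odd_square hU (by simp only [hV0, h0]) hU1 hodd
  refine ⟨E, fun s => (w s).re, hE, hE0, hE1, by simp [hw0], ?_, ?_⟩
  · have e1 : HasStrictDerivAt w 1 ((0 : ℝ) : ℂ) := by
      rw [Complex.ofReal_zero]
      have := hw.hasStrictDerivAt
      rwa [hwd.deriv] at this
    have e2 := e1.real_of_complex
    rwa [Complex.one_re] at e2
  · have hwt : Tendsto w (𝓝 0) (𝓝 0) := by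
      have := hw.continuousAt.tendsto
      rwa [hw0] at this
    filter_upwards [hre, real_ev hVw, real_ev (hwt.eventually hEU)] with s e1 e2 e3
    have e4 : (w s).im = 0 := by
      have e5 : (φ s).im = 0 := e1
      simp [hwdef, e5]
    have e6 : ((w s).re : ℂ) = w s := by
      apply Complex.ext
      · simp
      · simp [e4]
    rw [e2] at e3
    rw [e3, Complex.ofReal_pow, e6]

theorem image_eq {κ : ℝ → ℝ} (hκ0 : κ 0 = 0) (hκ : HasStrictDerivAt κ 1 0) :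
    ∃ τ > 0, ∀ t, 0 < t → t < τ → 0 < κ t ∧ κ t < 2 * t ∧
      (fun s => κ s ^ 2) '' Icc 0 t = Icc 0 (κ t ^ 2) := by
  have h1 := hκ.hasStrictFDerivAt.isLittleO.def (show (0 : ℝ) < 1 / 2 by norm_num)
  rw [nhds_prod_eq] at h1
  obtain ⟨p, hp, q, hq, hpq⟩ := Filter.eventually_prod_iff.1 h1
  obtain ⟨ρ, hρ, hb⟩ := Metric.eventually_nhds_iff_ball.1 (hp.and hq)
  have key : ∀ x ∈ Ioo (-ρ) ρ, ∀ y ∈ Ioo (-ρ) ρ, |κ x - κ y - (x - y)| ≤ 1 / 2 * |x - y| := by
    intro x hx y hy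
    have e1 := hb x (by rw [mem_ball_zero_iff, Real.norm_eq_abs, abs_lt]; exact hx)
    have e2 := hb y (by rw [mem_ball_zero_iff, Real.norm_eq_abs, abs_lt]; exact hy)
    have := hpq e1.1 e2.2
    simpa using this
  have mono : ∀ x ∈ Ioo (-ρ) ρ, ∀ y ∈ Ioo (-ρ) ρ, x ≤ y →
      (y - x) / 2 ≤ κ y - κ x ∧ κ y - κ x ≤ 3 / 2 * (y - x) := by
    intro x hx y hy hxy
    have := key y hy x hx
    rw [abs_of_nonneg (sub_nonneg.2 hxy), abs_le] at this
    constructor <;> linarith [this.1, this.2]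
  refine ⟨ρ, hρ, fun t ht htρ => ?_⟩
  have m0 : (0 : ℝ) ∈ Ioo (-ρ) ρ := ⟨by linarith, hρ⟩
  have mt : t ∈ Ioo (-ρ) ρ := ⟨by linarith, htρ⟩
  have h2 := mono 0 m0 t mt ht.le
  rw [hκ0] at h2
  have hpos : 0 < κ t := by linarith [h2.1]
  refine ⟨hpos, by linarith [h2.2], ?_⟩
  have hcont : ContinuousOn κ (Icc 0 t) := by
    have : LipschitzOnWith 2 κ (Icc 0 t) := by
      refine LipschitzOnWith.of_dist_le_mul fun x hx y hy => ?_
      have mx : x ∈ Ioo (-ρ) ρ := ⟨by linarith [hx.1], by linarith [hx.2]⟩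
      have my : y ∈ Ioo (-ρ) ρ := ⟨by linarith [hy.1], by linarith [hy.2]⟩
      have e := key x mx y my
      rw [Real.dist_eq, Real.dist_eq, NNReal.coe_ofNat]
      have e2 : |κ x - κ y| ≤ |κ x - κ y - (x - y)| + |x - y| := by
        have := abs_add_le (κ x - κ y - (x - y)) (x - y)
        rwa [sub_add_cancel] at this
      linarith [abs_nonneg (x - y)]
    exact this.continuousOn
  ext u
  constructor
  · rintro ⟨s, hs, rfl⟩
    have ms : s ∈ Ioo (-ρ) ρ := ⟨by linarith [hs.1], by linarith [hs.2]⟩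
    have e1 := mono 0 m0 s ms hs.1
    have e2 := mono s ms t mt hs.2
    rw [hκ0] at e1
    have e3 : 0 ≤ κ s := by linarith [e1.1, hs.1]
    have e4 : κ s ≤ κ t := by linarith [e2.1, hs.2]
    exact ⟨sq_nonneg _, pow_le_pow_left₀ e3 e4 2⟩
  · intro hu
    have e1 : Real.sqrt u ∈ Icc (κ 0) (κ t) := by
      rw [hκ0]
      exact ⟨Real.sqrt_nonneg _, Real.sqrt_le_iff.2 ⟨hpos.le, hu.2⟩⟩
    obtain ⟨s, hs, hsu⟩ := intermediate_value_Icc ht.le hcont e1
    refine ⟨s, hs, ?_⟩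
    simp only
    rw [hsu, Real.sq_sqrt hu.1]

theorem p1a : P1a := by
  intro Z hZ h0 h1 N hN
  induction N using Nat.strong_induction_on generalizing Z with
  | _ N ih =>
  by_cases hinj : ∃ ρ > 0, InjOn (fun s : ℝ => Z s ^ N) (Ioo (-ρ) ρ)
  · obtain ⟨ρ, hρ, hi⟩ := hinj
    exact arc_of_inj (F := fun z => Z z ^ N) (hZ.pow N) hρ hi
  · push Not at hinj
    obtain ⟨Y, hY, hY0, hYd, hYZ, hZY⟩ := exists_inv hZ h0 h1
    obtain ⟨ω, hω1, hω2, hω3⟩ := exists_omega h0 hYZ hN hinj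
    obtain ⟨hre, him⟩ := invol hZ h0 h1 hY hYd hω3
    have hωr : ((ω.re : ℝ) : ℂ) = ω := by
      apply Complex.ext
      · simp
      · simp [him]
    have hrp : ω.re ^ N = 1 := by
      rw [← hωr] at hω1
      exact_mod_cast hω1
    have hre1 : ω.re ≠ 1 := by
      intro h
      rw [h] at hωr
      exact hω2 (by rw [← hωr]; simp)
    obtain ⟨hm1, hev⟩ : ω.re = -1 ∧ Even N := by
      rcases pow_eq_one_iff_cases.1 hrp with h | h | h
      · exact absurd h hN.ne'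
      · exact absurd h hre1
      · exact h
    have hω : ω = -1 := by rw [← hωr, hm1]; simp
    obtain ⟨M, hM⟩ := hev
    have hre' : ∀ᶠ s : ℝ in 𝓝 0, (Y (-Z s)).im = 0 := by
      filter_upwards [hre] with s hs
      rwa [hω, neg_one_mul] at hs
    obtain ⟨E, κ, hE, hE0, hE1, hκ0, hκ, hZE⟩ := reduce hZ h0 h1 hY hY0 hYd hYZ hZY hre'
    obtain ⟨u₀, hu₀, harc⟩ := ih M (by omega) E hE hE0 hE1 (by omega)
    obtain ⟨τ, hτ, himg⟩ := image_eq hκ0 hκ
    obtain ⟨ρ, hρ, hb⟩ := Metric.eventually_nhds_iff_ball.1 hZE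
    refine ⟨min τ (min ρ (min 1 (u₀ / 4))), by positivity, fun t ht htt => ?_⟩
    have t1 : t < τ := lt_of_lt_of_le htt (min_le_left _ _)
    have t2 : t < ρ := lt_of_lt_of_le htt ((min_le_right _ _).trans (min_le_left _ _))
    have t3 : t < 1 := lt_of_lt_of_le htt
      ((min_le_right _ _).trans ((min_le_right _ _).trans (min_le_left _ _)))
    have t4 : t < u₀ / 4 := lt_of_lt_of_le htt
      ((min_le_right _ _).trans ((min_le_right _ _).trans (min_le_right _ _)))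
    obtain ⟨k1, k2, k3⟩ := himg t ht t1
    have hκu : κ t ^ 2 < u₀ := by nlinarith
    have := harc (κ t ^ 2) (by positivity) hκu
    have heq : (fun s : ℝ => Z s ^ N) '' Icc 0 t = (fun s : ℝ => E s ^ M) '' Icc 0 (κ t ^ 2) := by
      rw [← k3, image_image]
      refine image_congr fun s hs => ?_
      have e1 := hb s (by
        rw [mem_ball_zero_iff, Real.norm_eq_abs, abs_lt]
        exact ⟨by linarith [hs.1], by linarith [hs.2]⟩)
      rw [← e1, ← pow_mul]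
      congr 1
      omega
    rw [heq]
    exact this

end Pool.Agent.J6H59.AC
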