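import Pool.Agent.J6H15.AC.Defs

/-!
(P1b) The zero set of the real part of a holomorphic function near a zero of finite order.
-/

set_option autoImplicit false

open Metric Set Filter Topology Complex

namespace Pool.Agent.J6H59.AC

open Pool.Agent.J6H15.AC

/-- analytic local inverse -/
theorem exists_inv {f : ℂ → ℂ} (hf : AnalyticAt ℂ f 0) (h0 : f 0 = 0) (h1 : deriv f 0 ≠ 0) :
    ∃ g : ℂ → ℂ, AnalyticAt ℂ g 0 ∧ g 0 = 0 ∧ deriv g 0 = (deriv f 0)⁻¹ ∧
      (∀ᶠ x in 𝓝 (0 : ℂ), g (f x) = x) ∧ ∀ᶠ y in 𝓝 (0 : ℂ), f (g y) = y := by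
  have hd := hf.hasStrictDerivAt
  have e1 := hf.analyticAt_localInverse h1
  have e2 := hd.eventually_left_inverse h1
  have e3 := hd.eventually_right_inverse h1
  have e4 := hd.to_localInverse h1
  rw [h0] at e1 e3 e4
  refine ⟨hd.localInverse _ _ _ h1, e1, ?_, e4.hasDerivAt.deriv, e2, e3⟩
  have := e2.self_of_nhds
  rwa [h0] at this

/-- analytic root of a nonvanishing function -/
theorem exists_root {g : ℂ → ℂ} (hg : AnalyticAt ℂ g 0) (h0 : g 0 ≠ 0) {m : ℕ} (hm : m ≠ 0) :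
    ∃ r : ℂ → ℂ, AnalyticAt ℂ r 0 ∧ r 0 ≠ 0 ∧ ∀ᶠ z in 𝓝 (0 : ℂ), r z ^ m = g z := by
  refine ⟨fun z => Complex.exp (Complex.log (g 0) / m) * Complex.exp (Complex.log (g z / g 0) / m),
    ?_, ?_, ?_⟩
  · have h1 : AnalyticAt ℂ (fun z => Complex.log (g z / g 0)) 0 := by
      refine (hg.div_const).clog ?_
      rw [div_self h0]
      exact Complex.one_mem_slitPlane
    exact analyticAt_const.mul (h1.div_const).cexp'
  · exact mul_ne_zero (Complex.exp_ne_zero _) (Complex.exp_ne_zero _)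
  · have hne : ∀ᶠ z in 𝓝 (0 : ℂ), g z ≠ 0 := hg.continuousAt.eventually_ne h0
    filter_upwards [hne] with z hz
    have hmc : (m : ℂ) ≠ 0 := by exact_mod_cast hm
    rw [mul_pow, ← Complex.exp_nat_mul, ← Complex.exp_nat_mul, mul_div_cancel₀ _ hmc,
      mul_div_cancel₀ _ hmc, Complex.exp_log h0, Complex.exp_log (div_ne_zero hz h0),
      mul_div_cancel₀ _ h0]

/-- the angle of the `k`-th branch -/
noncomputable def ang (m k : ℕ) : ℝ := (Real.pi / 2 + k * Real.pi) / m

theorem exp_ang_pow {m : ℕ} (hm : m ≠ 0) (k : ℕ) :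
    Complex.exp (ang m k * I) ^ m = (-1) ^ k * I := by
  have hmc : (m : ℂ) ≠ 0 := by exact_mod_cast hm
  rw [← Complex.exp_nat_mul]
  have h1 : (m : ℂ) * (ang m k * I) = (k : ℂ) * (Real.pi * I) + Real.pi / 2 * I := by
    unfold ang
    push_cast
    field_simp
    ring
  rw [h1, Complex.exp_add, Complex.exp_nat_mul, Complex.exp_pi_mul_I, Complex.exp_pi_div_two_mul_I]

theorem p1b : P1b := by
  intro G hG hG0 hne
  obtain ⟨m, g, hg, hg0, hgG⟩ := (hG.exists_eventuallyEq_pow_smul_nonzero_iff).2 hne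
  have hm : m ≠ 0 := by
    rintro rfl
    have := hgG.self_of_nhds
    rw [hG0] at this
    simp at this
    exact hg0 this.symm
  obtain ⟨r, hr, hr0, hrg⟩ := exists_root hg hg0 hm
  set W : ℂ → ℂ := fun z => z * r z with hWdef
  have hW : AnalyticAt ℂ W 0 := analyticAt_id.mul hr
  have hW0 : W 0 = 0 := by simp [hWdef]
  have hWd : deriv W 0 = r 0 := by
    have := (hasDerivAt_id (0 : ℂ)).mul hr.differentiableAt.hasDerivAt
    have h2 := this.deriv
    simp only [id_eq, one_mul, zero_mul, add_zero] at h2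
    exact h2
  have hWG : ∀ᶠ z in 𝓝 (0 : ℂ), W z ^ m = G z := by
    filter_upwards [hgG, hrg] with z h1 h2
    rw [h1, hWdef]
    simp only
    rw [mul_pow, h2, sub_zero, smul_eq_mul]
  obtain ⟨V, hV, hV0, hVd, hVW, hWV⟩ := exists_inv hW hW0 (by rw [hWd]; exact hr0)
  have hVt : Tendsto V (𝓝 0) (𝓝 0) := by
    have := hV.continuousAt.tendsto
    rwa [hV0] at this
  have hVG : ∀ᶠ y in 𝓝 (0 : ℂ), G (V y) = y ^ m := by
    filter_upwards [hWV, hVt.eventually hWG] with y h1 h2
    rw [← h2, h1]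
  refine ⟨2 * m, fun k t => V (Complex.exp (ang m k * I) * t), ?_, ?_⟩
  · intro k
    set c : ℂ := Complex.exp (ang m k * I) with hc
    have hc0 : c ≠ 0 := Complex.exp_ne_zero _
    have hlin : AnalyticAt ℂ (fun t : ℂ => c * t) 0 := analyticAt_const.mul analyticAt_id
    refine ⟨?_, ?_, ?_, ?_⟩
    · refine AnalyticAt.fun_comp (g := V) ?_ hlin
      rwa [mul_zero]
    · simp only
      rw [mul_zero, hV0]
    · have h1 : HasDerivAt (fun t : ℂ => c * t) c 0 := by
        simpa using (hasDerivAt_id (0 : ℂ)).const_mul c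
      have h2 : HasDerivAt V (deriv V 0) (c * 0) := by
        rw [mul_zero]
        exact hV.differentiableAt.hasDerivAt
      have h3 := h2.comp (0 : ℂ) h1
      have h4 : deriv (fun t : ℂ => V (c * t)) 0 = deriv V 0 * c := h3.deriv
      rw [h4, hVd]
      exact mul_ne_zero (inv_ne_zero (by rw [hWd]; exact hr0)) hc0
    · have ht : Tendsto (fun t : ℝ => c * (t : ℂ)) (𝓝 0) (𝓝 0) := by
        have h : ContinuousAt (fun t : ℝ => c * (t : ℂ)) 0 := by fun_prop
        have := h.tendsto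
        simpa using this
      filter_upwards [ht.eventually hVG] with t h1
      rw [h1, mul_pow, hc, exp_ang_pow hm]
      have h5 : ((-1 : ℂ) ^ (k : ℕ) * I * (t : ℂ) ^ m) = ((((-1 : ℝ) ^ (k : ℕ) * t ^ m : ℝ)) : ℂ) * I := by
        push_cast
        ring
      rw [h5, Complex.re_ofReal_mul, Complex.I_re, mul_zero]
  · intro t₀ ht₀
    have hWt : Tendsto W (𝓝 0) (𝓝 0) := by
      have := hW.continuousAt.tendsto
      rwa [hW0] at this
    have hsm : ∀ᶠ z in 𝓝 (0 : ℂ), ‖W z‖ < t₀ := by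
      have := hWt.eventually (Metric.ball_mem_nhds (0 : ℂ) ht₀)
      filter_upwards [this] with z hz
      simpa using hz
    have hall := hsm.and (hVW.and hWG)
    obtain ⟨ρ, hρ, hball⟩ := Metric.eventually_nhds_iff_ball.1 hall
    refine ⟨ρ, hρ, ?_⟩
    intro ζ hζ0 hζr hre
    obtain ⟨h1, h2, h3⟩ := hball ζ (by simpa using hζr)
    have hζne : ζ ≠ 0 := norm_pos_iff.1 hζ0
    have hWne : W ζ ≠ 0 := by
      intro h
      rw [h, hV0] at h2
      exact hζne h2.symm
    set t : ℝ := ‖W ζ‖ with ht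
    have htpos : 0 < t := norm_pos_iff.2 hWne
    set φ : ℝ := Complex.arg (W ζ) with hφ
    have hpolar : W ζ = t * Complex.exp (φ * I) := (Complex.norm_mul_exp_arg_mul_I (W ζ)).symm
    have hcos : Real.cos (m * φ) = 0 := by
      rw [← h3, hpolar, mul_pow, ← Complex.exp_nat_mul] at hre
      have h4 : ((t : ℂ) ^ m * Complex.exp ((m : ℂ) * (φ * I))) =
          ((t ^ m : ℝ) : ℂ) * Complex.exp (((m * φ : ℝ) : ℂ) * I) := by
        push_cast
        ring_nf
      rw [h4, Complex.re_ofReal_mul, Complex.exp_ofReal_mul_I_re] at hre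
      exact (mul_eq_zero.1 hre).resolve_left (pow_ne_zero _ htpos.ne')
    obtain ⟨j, hj⟩ := Real.cos_eq_zero_iff.1 hcos
    have h2m : (0 : ℤ) < 2 * m := by positivity
    obtain ⟨k, hk⟩ : ∃ k : ℕ, ((k : ℤ) = j % (2 * m)) :=
      ⟨(j % (2 * m)).toNat, Int.toNat_of_nonneg (Int.emod_nonneg _ h2m.ne')⟩
    have hklt : k < 2 * m := by
      have := Int.emod_lt_of_pos j h2m
      rw [← hk] at this
      exact_mod_cast this
    refine ⟨⟨k, hklt⟩, t, htpos, h1, ?_⟩
    simp only
    have hdiv : j = k + 2 * m * (j / (2 * m)) := by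
      rw [hk]
      exact (Int.emod_add_mul_ediv j (2 * m)).symm
    have hexp : Complex.exp (ang m k * I) = Complex.exp (φ * I) := by
      rw [Complex.exp_eq_exp_iff_exists_int]
      refine ⟨-(j / (2 * m)), ?_⟩
      have hmr : (m : ℝ) ≠ 0 := by exact_mod_cast hm
      have hφ2 : φ = (2 * j + 1) * Real.pi / 2 / m := by
        rw [eq_div_iff hmr, ← hj]; ring
      have hjr : (j : ℝ) = k + 2 * m * ((j / (2 * m) : ℤ) : ℝ) := by exact_mod_cast hdiv
      have : ang m k = φ - 2 * Real.pi * ((j / (2 * m) : ℤ) : ℝ) := by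
        rw [hφ2]
        unfold ang
        generalize ((j / (2 * m) : ℤ) : ℝ) = q at hjr ⊢
        rw [hjr]
        field_simp
        ring
      rw [this]
      push_cast
      ring
    rw [hexp, mul_comm, ← hpolar, h2]

end Pool.Agent.J6H59.AC
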