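import Pool.Agent.J6H15.AC.Defs
import Pool.Agent.H586R3.CT4

/-!
(P2) On almost every ray from `0`, `z C_μ(z)` is not bounded below near `0` if `μ {0} = 0`.
-/

set_option autoImplicit false

open MeasureTheory Metric Set Filter Topology Complex
open scoped ENNReal
open Pool.Agent.H586R3.CT

namespace Pool.Agent.J6H59.AC

open Pool.Agent.J6H15.AC

/-- the radii -/
noncomputable def rn (n : ℕ) : ℝ := 1 / ((n : ℝ) + 1)

lemma rn_pos (n : ℕ) : 0 < rn n := by unfold rn; positivity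

lemma tendsto_rn : Tendsto rn atTop (𝓝 0) := tendsto_one_div_add_atTop_nhds_zero_nat

lemma lintegral_inv_ball (ρ : ℝ) :
    ∫⁻ z in ball (0 : ℂ) ρ, ‖z⁻¹‖ₑ = ENNReal.ofReal (2 * Real.pi * ρ) := by
  rw [← lintegral_polar_ball 0 ρ (f := fun z => ‖z⁻¹‖ₑ) (by fun_prop)]
  have h1 : ∀ s ∈ Ioo 0 ρ, ∫⁻ θ in Ioo (-Real.pi) Real.pi, ENNReal.ofReal s * ‖(cp 0 s θ)⁻¹‖ₑ =
      ENNReal.ofReal (2 * Real.pi) := by
    intro s hs
    have h2 : ∀ θ : ℝ, ENNReal.ofReal s * ‖(cp 0 s θ)⁻¹‖ₑ = 1 := by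
      intro θ
      have h3 : ‖cp 0 s θ‖ = s := by
        have := dist_cp 0 hs.1.le θ
        rwa [dist_zero_right] at this
      rw [← enorm_norm, norm_inv, h3, Real.enorm_eq_ofReal (inv_nonneg.2 hs.1.le),
        ← ENNReal.ofReal_mul hs.1.le, mul_inv_cancel₀ hs.1.ne', ENNReal.ofReal_one]
    simp only [h2]
    rw [setLIntegral_one, Real.volume_Ioo]
    congr 1
    ring
  rw [setLIntegral_congr_fun measurableSet_Ioo h1, setLIntegral_const, Real.volume_Ioo,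
    ← ENNReal.ofReal_mul (by positivity), sub_zero]

lemma vol_ball (ρ : ℝ) (hρ : 0 ≤ ρ) :
    volume (ball (0 : ℂ) ρ) = ENNReal.ofReal (Real.pi * ρ ^ 2) := by
  rw [Complex.volume_ball, ← ENNReal.ofReal_pow hρ, mul_comm Real.pi,
    ENNReal.ofReal_mul (by positivity)]
  congr 1
  rw [← NNReal.coe_real_pi, ENNReal.ofReal_coe_nnreal]

/-- the kernel -/
noncomputable def Kr (ρ : ℝ) (ζ : ℂ) : ℝ≥0∞ := ∫⁻ z in ball (0 : ℂ) ρ, ‖(z - ζ)⁻¹‖ₑ

lemma Kr_meas (ρ : ℝ) : Measurable (Kr ρ) := by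
  have h : Measurable (fun p : ℂ × ℂ => ‖(p.2 - p.1)⁻¹‖ₑ) := by fun_prop
  exact h.lintegral_prod_right'

lemma Kr_le (ρ : ℝ) (hρ : 0 < ρ) (ζ : ℂ) : Kr ρ ζ ≤ ENNReal.ofReal (3 * Real.pi * ρ) := by
  have h1 : Kr ρ ζ ≤ ∫⁻ z in ball (0 : ℂ) ρ,
      ((ball (0 : ℂ) ρ).indicator (fun v => ‖v⁻¹‖ₑ) (z - ζ) + ENNReal.ofReal ρ⁻¹) := by
    apply lintegral_mono
    intro z
    show ‖(z - ζ)⁻¹‖ₑ ≤ (ball (0 : ℂ) ρ).indicator (fun v => ‖v⁻¹‖ₑ) (z - ζ) + ENNReal.ofReal ρ⁻¹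
    by_cases hz : z - ζ ∈ ball (0 : ℂ) ρ
    · rw [indicator_of_mem hz]
      exact le_self_add
    · rw [indicator_of_notMem hz, zero_add]
      rw [mem_ball_zero_iff, not_lt] at hz
      rw [← enorm_norm, norm_inv, Real.enorm_eq_ofReal (by positivity)]
      exact ENNReal.ofReal_le_ofReal (inv_anti₀ hρ hz)
  refine h1.trans ?_
  rw [lintegral_add_right _ measurable_const]
  have h2 : ∫⁻ z in ball (0 : ℂ) ρ, (ball (0 : ℂ) ρ).indicator (fun v => ‖v⁻¹‖ₑ) (z - ζ) ≤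
      ENNReal.ofReal (2 * Real.pi * ρ) := by
    calc ∫⁻ z in ball (0 : ℂ) ρ, (ball (0 : ℂ) ρ).indicator (fun v => ‖v⁻¹‖ₑ) (z - ζ)
        ≤ ∫⁻ z, (ball (0 : ℂ) ρ).indicator (fun v => ‖v⁻¹‖ₑ) (z - ζ) := setLIntegral_le_lintegral _ _
      _ = ∫⁻ z, (ball (0 : ℂ) ρ).indicator (fun v => ‖v⁻¹‖ₑ) z :=
          lintegral_sub_right_eq_self _ ζ
      _ = ∫⁻ z in ball (0 : ℂ) ρ, ‖z⁻¹‖ₑ := lintegral_indicator measurableSet_ball _
      _ = _ := lintegral_inv_ball ρ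
  have h3 : ∫⁻ _ in ball (0 : ℂ) ρ, ENNReal.ofReal ρ⁻¹ = ENNReal.ofReal (Real.pi * ρ) := by
    rw [setLIntegral_const, vol_ball ρ hρ.le, ← ENNReal.ofReal_mul (by positivity)]
    congr 1
    field_simp
  rw [h3]
  refine (add_le_add_left h2 _).trans (le_of_eq ?_)
  rw [← ENNReal.ofReal_add (by positivity) (by positivity)]
  congr 1
  ring

lemma Kr_le' (ρ : ℝ) (hρ : 0 < ρ) (ζ : ℂ) (hζ : 2 * ρ ≤ ‖ζ‖) :
    Kr ρ ζ ≤ ENNReal.ofReal (2 * Real.pi * ρ ^ 2 / ‖ζ‖) := by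
  have hζ0 : 0 < ‖ζ‖ := by linarith
  have h1 : Kr ρ ζ ≤ ∫⁻ z in ball (0 : ℂ) ρ, ENNReal.ofReal (2 / ‖ζ‖) := by
    refine setLIntegral_mono measurable_const fun z hz => ?_
    rw [mem_ball_zero_iff] at hz
    rw [← enorm_norm, norm_inv, Real.enorm_eq_ofReal (by positivity)]
    refine ENNReal.ofReal_le_ofReal ?_
    have h2 : ‖ζ‖ / 2 ≤ ‖z - ζ‖ := by
      have h3 : ‖ζ‖ ≤ ‖z - ζ‖ + ‖z‖ := by
        have := norm_sub_le z (z - ζ)
        rw [sub_sub_cancel] at this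
        linarith
      linarith
    have h4 := inv_anti₀ (by positivity) h2
    rwa [inv_div] at h4
  refine h1.trans (le_of_eq ?_)
  rw [setLIntegral_const, vol_ball ρ hρ.le, ← ENNReal.ofReal_mul (by positivity)]
  congr 1
  field_simp

/-- the averaged kernel -/
noncomputable def Gn (n : ℕ) (ζ : ℂ) : ℝ≥0∞ := ((n : ℝ≥0∞) + 1) * Kr (rn n) ζ

lemma cast_eq (n : ℕ) : ((n : ℝ≥0∞) + 1) = ENNReal.ofReal ((n : ℝ) + 1) := by
  rw [ENNReal.ofReal_add (by positivity) zero_le_one, ENNReal.ofReal_natCast, ENNReal.ofReal_one]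

lemma Gn_meas (n : ℕ) : Measurable (Gn n) := (Kr_meas _).const_mul _

lemma Gn_le (n : ℕ) (ζ : ℂ) : Gn n ζ ≤ ENNReal.ofReal (3 * Real.pi) := by
  unfold Gn
  refine (mul_le_mul_right (Kr_le (rn n) (rn_pos n) ζ) _).trans (le_of_eq ?_)
  rw [cast_eq, ← ENNReal.ofReal_mul (by positivity)]
  congr 1
  unfold rn
  field_simp

lemma Gn_tendsto {ζ : ℂ} (hζ : ζ ≠ 0) : Tendsto (fun n => Gn n ζ) atTop (𝓝 0) := by
  have hζ0 : 0 < ‖ζ‖ := norm_pos_iff.2 hζ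
  have h1 : ∀ᶠ n in atTop, Gn n ζ ≤ ENNReal.ofReal (2 * Real.pi * rn n / ‖ζ‖) := by
    have h2 : ∀ᶠ n in atTop, rn n < ‖ζ‖ / 2 := tendsto_rn.eventually (gt_mem_nhds (by positivity))
    filter_upwards [h2] with n hn
    unfold Gn
    refine (mul_le_mul_right (Kr_le' (rn n) (rn_pos n) ζ (by linarith)) _).trans (le_of_eq ?_)
    rw [cast_eq, ← ENNReal.ofReal_mul (by positivity)]
    congr 1
    have h3 : ((n : ℝ) + 1) * rn n = 1 := by unfold rn; field_simp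
    have h4 : ((n : ℝ) + 1) * (2 * Real.pi * rn n ^ 2 / ‖ζ‖) =
        (((n : ℝ) + 1) * rn n) * (2 * Real.pi * rn n / ‖ζ‖) := by ring
    rw [h4, h3, one_mul]
  have h5 : Tendsto (fun n => ENNReal.ofReal (2 * Real.pi * rn n / ‖ζ‖)) atTop (𝓝 0) := by
    have h6 : Tendsto (fun n => 2 * Real.pi * rn n / ‖ζ‖) atTop (𝓝 0) := by
      have := (tendsto_rn.const_mul (2 * Real.pi)).div_const ‖ζ‖
      simpa using this
    have := ENNReal.tendsto_ofReal h6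
    rwa [ENNReal.ofReal_zero] at this
  exact tendsto_of_tendsto_of_tendsto_of_le_of_le' tendsto_const_nhds h5
    (Eventually.of_forall fun _ => zero_le) h1

lemma CT_meas (μ : Measure ℂ) [IsFiniteMeasure μ] : StronglyMeasurable (CT μ) := by
  have h : StronglyMeasurable (fun p : ℂ × ℂ => (p.1 - p.2)⁻¹) := measurable_ker.stronglyMeasurable
  exact h.integral_prod_right'

/-- the mean over the disc -/
lemma Hn_tendsto (μ : Measure ℂ) [IsFiniteMeasure μ] (h0 : μ {0} = 0) :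
    Tendsto (fun n : ℕ => ((n : ℝ≥0∞) + 1) * ∫⁻ z in ball (0 : ℂ) (rn n), ‖CT μ z‖ₑ) atTop (𝓝 0) := by
  have h1 : Tendsto (fun n => ∫⁻ ζ, Gn n ζ ∂μ) atTop (𝓝 (∫⁻ _, 0 ∂μ)) := by
    refine tendsto_lintegral_of_dominated_convergence (fun _ => ENNReal.ofReal (3 * Real.pi))
      Gn_meas (fun n => Eventually.of_forall (Gn_le n)) ?_ ?_
    · rw [lintegral_const]
      exact (ENNReal.mul_lt_top ENNReal.ofReal_lt_top (measure_lt_top μ _)).ne
    · have : ∀ᵐ ζ ∂μ, ζ ≠ 0 := by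
        rw [ae_iff]
        simpa using h0
      filter_upwards [this] with ζ hζ using Gn_tendsto hζ
  rw [lintegral_zero] at h1
  refine tendsto_of_tendsto_of_tendsto_of_le_of_le tendsto_const_nhds h1
    (fun _ => zero_le) fun n => ?_
  have h2 : ∫⁻ z in ball (0 : ℂ) (rn n), ‖CT μ z‖ₑ ≤
      ∫⁻ z in ball (0 : ℂ) (rn n), ∫⁻ ζ, ‖(z - ζ)⁻¹‖ₑ ∂μ :=
    lintegral_mono fun z => enorm_integral_le_lintegral_enorm _
  have h3 : ∫⁻ z in ball (0 : ℂ) (rn n), ∫⁻ ζ, ‖(z - ζ)⁻¹‖ₑ ∂μ = ∫⁻ ζ, Kr (rn n) ζ ∂μ := by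
    rw [lintegral_lintegral_swap]
    · rfl
    · have : Measurable (fun p : ℂ × ℂ => ‖(p.1 - p.2)⁻¹‖ₑ) := measurable_ker.enorm
      exact this.aemeasurable
  have h4 : ∫⁻ ζ, Gn n ζ ∂μ = ((n : ℝ≥0∞) + 1) * ∫⁻ ζ, Kr (rn n) ζ ∂μ :=
    lintegral_const_mul _ (Kr_meas _)
  simp only
  rw [h4, ← h3]
  exact mul_le_mul_right h2 _

/-- the mean on the ray -/
noncomputable def Ph (μ : Measure ℂ) (n : ℕ) (θ : ℝ) : ℝ≥0∞ :=
  ((n : ℝ≥0∞) + 1) * ∫⁻ s in Ioo 0 (rn n), ENNReal.ofReal s * ‖CT μ (cp 0 s θ)‖ₑ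

lemma joint_meas (μ : Measure ℂ) [IsFiniteMeasure μ] :
    Measurable (fun p : ℝ × ℝ => ENNReal.ofReal p.2 * ‖CT μ (cp 0 p.2 p.1)‖ₑ) := by
  refine (ENNReal.measurable_ofReal.comp measurable_snd).mul ?_
  exact ((CT_meas μ).measurable.enorm).comp ((cp_continuous 0).measurable.comp
    (measurable_snd.prodMk measurable_fst))

lemma Ph_meas (μ : Measure ℂ) [IsFiniteMeasure μ] (n : ℕ) : Measurable (Ph μ n) := by
  refine Measurable.const_mul ?_ _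
  exact (joint_meas μ).lintegral_prod_right'

lemma lint_Ph (μ : Measure ℂ) [IsFiniteMeasure μ] (n : ℕ) :
    ∫⁻ θ in Ioo (-Real.pi) Real.pi, Ph μ n θ =
      ((n : ℝ≥0∞) + 1) * ∫⁻ z in ball (0 : ℂ) (rn n), ‖CT μ z‖ₑ := by
  have h1 : ∫⁻ θ in Ioo (-Real.pi) Real.pi, Ph μ n θ = ((n : ℝ≥0∞) + 1) *
      ∫⁻ θ in Ioo (-Real.pi) Real.pi, ∫⁻ s in Ioo 0 (rn n),
        ENNReal.ofReal s * ‖CT μ (cp 0 s θ)‖ₑ :=
    lintegral_const_mul _ (joint_meas μ).lintegral_prod_right'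
  rw [h1, lintegral_lintegral_swap (joint_meas μ).aemeasurable,
    lintegral_polar_ball 0 (rn n) (f := fun z => ‖CT μ z‖ₑ) (CT_meas μ).measurable.enorm]

theorem p2 : P2 := by
  intro μ _ h0
  have h1 : ∫⁻ θ in Ioo (-Real.pi) Real.pi, liminf (fun n => Ph μ n θ) atTop = 0 := by
    have h2 : ∫⁻ θ in Ioo (-Real.pi) Real.pi, liminf (fun n => Ph μ n θ) atTop ≤
        liminf (fun n => ∫⁻ θ in Ioo (-Real.pi) Real.pi, Ph μ n θ) atTop :=
      lintegral_liminf_le (Ph_meas μ)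
    have h3 : liminf (fun n => ∫⁻ θ in Ioo (-Real.pi) Real.pi, Ph μ n θ) atTop = 0 := by
      simp only [lint_Ph]
      exact (Hn_tendsto μ h0).liminf_eq
    rw [h3] at h2
    exact nonpos_iff_eq_zero.1 h2
  have hml : Measurable (fun θ => liminf (fun n => Ph μ n θ) atTop) := Measurable.liminf (Ph_meas μ)
  rw [lintegral_eq_zero_iff hml] at h1
  have h4 := (ae_restrict_iff' measurableSet_Ioo).1 h1
  filter_upwards [h4] with θ hθ hmem c hc r hr hcon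
  have h5 : liminf (fun n => Ph μ n θ) atTop = 0 := hθ hmem
  have h6 : ENNReal.ofReal c ≤ liminf (fun n => Ph μ n θ) atTop := by
    refine le_liminf_of_le (by isBoundedDefault) ?_
    filter_upwards [tendsto_rn.eventually (gt_mem_nhds hr)] with n hn
    have h7 : ∫⁻ _ in Ioo 0 (rn n), ENNReal.ofReal c ≤
        ∫⁻ s in Ioo 0 (rn n), ENNReal.ofReal s * ‖CT μ (cp 0 s θ)‖ₑ := by
      refine lintegral_mono_ae ?_
      refine (ae_restrict_iff' measurableSet_Ioo).2 ?_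
      filter_upwards [hcon] with s hs hsm
      have h8 := hs ⟨hsm.1, hsm.2.trans hn⟩
      have h9 : cp 0 s θ = (s : ℂ) * Complex.exp (θ * I) := by
        unfold cp; rw [zero_add]
      rw [h9]
      have h10 : ‖((s : ℂ) * Complex.exp (θ * I))‖ = s := by
        rw [norm_mul, Complex.norm_exp_ofReal_mul_I, mul_one, Complex.norm_real,
          Real.norm_of_nonneg hsm.1.le]
      rw [norm_mul, h10] at h8
      rw [← enorm_norm (CT μ _), Real.enorm_eq_ofReal (norm_nonneg _),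
        ← ENNReal.ofReal_mul hsm.1.le]
      exact ENNReal.ofReal_le_ofReal h8
    rw [setLIntegral_const, Real.volume_Ioo, sub_zero] at h7
    have h11 : ENNReal.ofReal c = ((n : ℝ≥0∞) + 1) * (ENNReal.ofReal c * ENNReal.ofReal (rn n)) := by
      rw [cast_eq, ← ENNReal.ofReal_mul hc.le, ← ENNReal.ofReal_mul (by positivity)]
      congr 1
      unfold rn
      field_simp
    unfold Ph
    rw [h11]
    exact mul_le_mul_right h7 _
  rw [h5] at h6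
  have h12 := ENNReal.ofReal_eq_zero.1 (nonpos_iff_eq_zero.1 h6)
  linarith

end Pool.Agent.J6H59.AC
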