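import Mathlib
import Pool.Agent.J6H15.AC.Defs3

/-!
The principal root and sectors.
-/

set_option autoImplicit false

open MeasureTheory Metric Set Filter Topology Complex

namespace Pool.Agent.J6H59.AC

open Pool.Agent.J6H15.AC

theorem rt_ne (N : ℕ) (z : ℂ) : rt N z ≠ 0 := Complex.exp_ne_zero _

theorem rt_pow' {N : ℕ} (hN : 0 < N) {z : ℂ} (hz : z ≠ 0) : rt N z ^ N = z := by
  unfold rt
  rw [← Complex.exp_nat_mul]
  have hN' : (N : ℂ) ≠ 0 := by exact_mod_cast hN.ne'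
  rw [mul_div_cancel₀ _ hN', Complex.exp_log hz]

theorem rt_norm_pow {N : ℕ} (hN : 0 < N) {z : ℂ} (hz : z ≠ 0) : ‖rt N z‖ ^ N = ‖z‖ := by
  rw [← norm_pow, rt_pow' hN hz]

theorem rt_norm {N : ℕ} (hN : 0 < N) {z : ℂ} (hz : z ≠ 0) :
    ‖rt N z‖ = ‖z‖ ^ ((N : ℝ)⁻¹) := by
  rw [← rt_norm_pow hN hz, Real.pow_rpow_inv_natCast (norm_nonneg _) hN.ne']

theorem rt_norm_le {N : ℕ} (hN : 0 < N) {z : ℂ} (hz : z ≠ 0) {e : ℝ} (he : 0 < e)
    (h : ‖z‖ < e ^ N) : ‖rt N z‖ < e := by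
  have h1 := rt_norm_pow hN hz
  rw [← h1] at h
  exact lt_of_pow_lt_pow_left₀ N he.le h

theorem rt_arg {N : ℕ} (hN : 0 < N) {z : ℂ} : Complex.arg (rt N z) = Complex.arg z / N := by
  have hN1 : (1 : ℝ) ≤ N := by exact_mod_cast hN
  have hN0 : (0 : ℝ) < N := by linarith
  have h1 := Complex.neg_pi_lt_arg z
  have h2 := Complex.arg_le_pi z
  have him : (Complex.log z / N).im = Complex.arg z / N := by
    rw [Complex.div_natCast_im, Complex.log_im]
  unfold rt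
  rw [Complex.arg_exp, him, toIocMod_eq_self]
  have hpi := Real.pi_pos
  constructor
  · rw [lt_div_iff₀ hN0]
    nlinarith
  · rw [div_le_iff₀ hN0]
    nlinarith

theorem sec_ne {δ r : ℝ} {z : ℂ} (hz : z ∈ Sec δ r) : z ≠ 0 := norm_pos_iff.1 hz.1

theorem sec_slit {δ r : ℝ} (hδ : δ < 1) {z : ℂ} (hz : z ∈ Sec δ r) : z ∈ slitPlane := by
  rw [Complex.mem_slitPlane_iff_arg]
  refine ⟨?_, sec_ne hz⟩
  intro h
  have h1 := hz.2.2
  rw [h, abs_of_pos Real.pi_pos] at h1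
  linarith [Real.pi_gt_three]

theorem rt_arg_le {N : ℕ} (hN : 0 < N) {δ r : ℝ} {z : ℂ} (hz : z ∈ Sec δ r) :
    |Complex.arg (rt N z)| < δ := by
  have hN1 : (1 : ℝ) ≤ N := by exact_mod_cast hN
  rw [rt_arg hN, abs_div, abs_of_pos (by linarith : (0 : ℝ) < N)]
  exact lt_of_le_of_lt (div_le_self (abs_nonneg _) hN1) hz.2.2

theorem rt_deriv (N : ℕ) {z : ℂ} (hz : z ∈ slitPlane) :
    HasDerivAt (rt N) (rt N z * (z⁻¹ / N)) z :=
  ((Complex.hasDerivAt_log hz).div_const (N : ℂ)).cexp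

theorem sec_open {δ r : ℝ} (hδ : δ < 1) : IsOpen (Sec δ r) := by
  rw [isOpen_iff_mem_nhds]
  intro z hz
  have h1 : ∀ᶠ w in 𝓝 z, 0 < ‖w‖ := (continuous_norm.tendsto z).eventually_const_lt hz.1
  have h2 : ∀ᶠ w in 𝓝 z, ‖w‖ < r := (continuous_norm.tendsto z).eventually_lt_const hz.2.1
  have h3 : ∀ᶠ w in 𝓝 z, |Complex.arg w| < δ :=
    ((continuous_abs.continuousAt.comp
      (Complex.continuousAt_arg (sec_slit hδ hz))).tendsto).eventually_lt_const hz.2.2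
  filter_upwards [h1, h2, h3] with w a b c
  exact ⟨a, b, c⟩

theorem sec_image {δ r : ℝ} (hr : 0 < r) (hδ : δ < 1) :
    Sec δ r = Complex.exp '' {w : ℂ | w.re < Real.log r ∧ |w.im| < δ} := by
  ext z
  constructor
  · intro hz
    refine ⟨Complex.log z, ⟨?_, ?_⟩, Complex.exp_log (sec_ne hz)⟩
    · rw [Complex.log_re]
      exact Real.log_lt_log hz.1 hz.2.1
    · rw [Complex.log_im]
      exact hz.2.2
  · rintro ⟨w, ⟨h1, h2⟩, rfl⟩
    refine ⟨norm_pos_iff.2 (Complex.exp_ne_zero _), ?_, ?_⟩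
    · rw [Complex.norm_exp]
      calc Real.exp w.re < Real.exp (Real.log r) := Real.exp_lt_exp.2 h1
        _ = r := Real.exp_log hr
    · rw [Complex.arg_exp, (toIocMod_eq_self Real.two_pi_pos).2]
      · exact h2
      · rw [abs_lt] at h2
        have := Real.pi_gt_three
        constructor <;> linarith [h2.1, h2.2]

theorem sec_preconnected {δ r : ℝ} (hr : 0 < r) (hδ : δ < 1) : IsPreconnected (Sec δ r) := by
  rw [sec_image hr hδ]
  refine IsPreconnected.image (Convex.isPreconnected ?_) _ Complex.continuous_exp.continuousOn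
  have h1 : {w : ℂ | w.re < Real.log r ∧ |w.im| < δ} =
      {w : ℂ | w.re < Real.log r} ∩ ({w : ℂ | w.im < δ} ∩ {w : ℂ | -δ < w.im}) := by
    ext w
    simp only [mem_ofPred_eq, mem_inter_iff, abs_lt]
    tauto
  rw [h1]
  exact (convex_halfSpace_re_lt _).inter ((convex_halfSpace_im_lt _).inter
    (convex_halfSpace_im_gt _))

theorem sec_mono {δ δ' r r' : ℝ} (h1 : δ' ≤ δ) (h2 : r' ≤ r) : Sec δ' r' ⊆ Sec δ r :=
  fun _ hz => ⟨hz.1, lt_of_lt_of_le hz.2.1 h2, lt_of_lt_of_le hz.2.2 h1⟩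

theorem real_mem_sec {δ r x : ℝ} (hδ : 0 < δ) (hx : 0 < x) (hxr : x < r) : (x : ℂ) ∈ Sec δ r := by
  refine ⟨?_, ?_, ?_⟩
  · rw [Complex.norm_real, Real.norm_eq_abs]
    exact abs_pos.2 hx.ne'
  · rw [Complex.norm_real, Real.norm_eq_abs, abs_of_pos hx]
    exact hxr
  · rw [Complex.arg_ofReal_of_nonneg hx.le, abs_zero]
    exact hδ

theorem polar_mem_sec {δ r x t : ℝ} (ht : |t| < δ) (hδ : δ < 1) (hx : 0 < x) (hxr : x < r) :
    (x : ℂ) * Complex.exp (t * I) ∈ Sec δ r := by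
  refine ⟨?_, ?_, ?_⟩
  · rw [norm_mul, Complex.norm_exp_ofReal_mul_I, mul_one, Complex.norm_real, Real.norm_eq_abs]
    exact abs_pos.2 hx.ne'
  · rw [norm_mul, Complex.norm_exp_ofReal_mul_I, mul_one, Complex.norm_real, Real.norm_eq_abs,
      abs_of_pos hx]
    exact hxr
  · rw [Complex.arg_real_mul _ hx, Complex.arg_exp_mul_I, (toIocMod_eq_self Real.two_pi_pos).2]
    · exact ht
    · rw [abs_lt] at ht
      have := Real.pi_gt_three
      constructor <;> linarith [ht.1, ht.2]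

end Pool.Agent.J6H59.AC
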