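import Mathlib
import Pool.Agent.J6H59.AC.GDex1

/-!
Direction and primitives.
-/

set_option autoImplicit false

open MeasureTheory Metric Set Filter Topology Complex

namespace Pool.Agent.J6H59.AC

open Pool.Agent.J6H15.AC

theorem exists_dir (hS : SignLem) {ι : Type} [Finite ι] {p : ι → ℂ → ℂ}
    (hm : ∀ i, MeromorphicAt (p i) 0)
    (hne : ∀ i j, i ≠ j → ∀ᶠ ζ in 𝓝[≠] (0 : ℂ), p i ζ ≠ p j ζ) :
    ∃ u : ℂ, 0 < u.im ∧ ∃ ρ : ι → ℝ, Function.Injective ρ ∧ ∃ ε > 0, ∀ ζ : ℂ, 0 < ‖ζ‖ → ‖ζ‖ < ε →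
      |Complex.arg ζ| < ε → ∀ i j, ρ j < ρ i → 0 < (u * (p i ζ - p j ζ)).re := by
  classical
  have hA : ∀ i j, ∃ a : ℂ, i ≠ j → (a ≠ 0 ∧ ∀ u : ℂ, 0 < (u * a).re → ∃ ε > 0, ∀ ζ : ℂ,
      0 < ‖ζ‖ → ‖ζ‖ < ε → |Complex.arg ζ| < ε → ∀ u' : ℂ, ‖u' - u‖ < ε →
        0 < (u' * (p i ζ - p j ζ)).re) := by
    intro i j
    by_cases hij : i = j
    · exact ⟨1, fun h => (h hij).elim⟩
    · obtain ⟨a, ha⟩ := hS (fun ζ => p i ζ - p j ζ) ((hm i).fun_sub (hm j)) (by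
        intro h
        obtain ⟨ζ, h1, h2⟩ := (h.and (hne i j hij)).exists
        exact h2 (sub_eq_zero.1 h1))
      exact ⟨a, fun _ => ha⟩
  choose a ha using hA
  haveI := Fintype.ofFinite ι
  obtain ⟨t, ht⟩ : ∃ t : ℝ, t ∉ (Set.range fun x : ι × ι => (a x.1 x.2).im / (a x.1 x.2).re) := by
    have hfin : (Set.range fun x : ι × ι => (a x.1 x.2).im / (a x.1 x.2).re).Finite :=
      Set.finite_range _
    exact hfin.infinite_compl.nonempty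
  set u : ℂ := (t : ℂ) + I with hu
  have hua : ∀ i j, i ≠ j → (u * a i j).re ≠ 0 := by
    intro i j hij h
    have h1 : (u * a i j).re = t * (a i j).re - (a i j).im := by
      simp [hu, Complex.mul_re]
    rw [h1] at h
    by_cases h2 : (a i j).re = 0
    · rw [h2] at h
      have h3 : (a i j).im = 0 := by linarith
      exact (ha i j hij).1 (Complex.ext h2 h3)
    · apply ht
      refine ⟨(i, j), ?_⟩
      simp only
      rw [div_eq_iff h2]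
      linarith
  have hsg : ∀ x : ι × ι, ∃ ε > 0, ∃ σ : ℝ, (σ = 1 ∨ σ = -1) ∧ (x.1 ≠ x.2 → ∀ ζ : ℂ,
      0 < ‖ζ‖ → ‖ζ‖ < ε → |Complex.arg ζ| < ε → 0 < σ * (u * (p x.1 ζ - p x.2 ζ)).re) := by
    rintro ⟨i, j⟩
    by_cases hij : i = j
    · exact ⟨1, one_pos, 1, Or.inl rfl, fun h => (h hij).elim⟩
    rcases lt_or_gt_of_ne (hua i j hij) with h | h
    · obtain ⟨ε, hε, h1⟩ := (ha i j hij).2 (-u) (by rw [neg_mul, Complex.neg_re]; linarith)
      refine ⟨ε, hε, -1, Or.inr rfl, fun _ ζ h2 h3 h4 => ?_⟩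
      have h5 := h1 ζ h2 h3 h4 (-u) (by rw [sub_self, norm_zero]; exact hε)
      rw [neg_mul, Complex.neg_re] at h5
      linarith
    · obtain ⟨ε, hε, h1⟩ := (ha i j hij).2 u h
      refine ⟨ε, hε, 1, Or.inl rfl, fun _ ζ h2 h3 h4 => ?_⟩
      have h5 := h1 ζ h2 h3 h4 u (by rw [sub_self, norm_zero]; exact hε)
      linarith
  choose e he σ hσ hpos using hsg
  obtain ⟨ε, hε1, hε2⟩ : ∃ ε : ℝ, ε ∈ Ioi (0 : ℝ) ∧ ∀ x, ε < e x := by
    have h1 : ∀ᶠ ε : ℝ in 𝓝[>] 0, ∀ x, ε < e x :=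
      eventually_all.2 fun x => (eventually_lt_nhds (he x)).filter_mono nhdsWithin_le_nhds
    obtain ⟨ε, h2, h3⟩ := (h1.and self_mem_nhdsWithin).exists
    exact ⟨ε, h3, h2⟩
  have hε0 : 0 < ε := hε1
  have hζ0 : 0 < ‖((ε / 2 : ℝ) : ℂ)‖ ∧ ‖((ε / 2 : ℝ) : ℂ)‖ < ε ∧
      |Complex.arg ((ε / 2 : ℝ) : ℂ)| < ε := by
    rw [Complex.norm_real, Real.norm_eq_abs, abs_of_pos (by linarith),
      Complex.arg_ofReal_of_nonneg (by linarith), abs_zero]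
    refine ⟨by linarith, by linarith, hε0⟩
  refine ⟨u, by simp [hu], fun i => (u * p i ((ε / 2 : ℝ) : ℂ)).re, ?_, ε, hε0, ?_⟩
  · intro i j hij
    by_contra hne'
    have h1 := hpos (i, j) hne' _ hζ0.1 (hζ0.2.1.trans (hε2 _)) (hζ0.2.2.trans (hε2 _))
    simp only at hij h1
    rw [mul_sub, Complex.sub_re, hij, sub_self, mul_zero] at h1
    exact lt_irrefl _ h1
  · intro ζ h1 h2 h3 i j hij
    have hne' : i ≠ j := by
      rintro rfl
      exact lt_irrefl _ hij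
    have h4 := hpos (i, j) hne' _ hζ0.1 (hζ0.2.1.trans (hε2 _)) (hζ0.2.2.trans (hε2 _))
    have h5 := hpos (i, j) hne' ζ h1 (h2.trans (hε2 _)) (h3.trans (hε2 _))
    simp only at h4 h5 hij
    rcases hσ (i, j) with h | h
    · rw [h] at h5
      linarith
    · rw [h, mul_sub, Complex.sub_re] at h4
      linarith

/-- primitives of the branches -/
theorem exists_prim {N : ℕ} {p : ℂ → ℂ} (hp : AnalyticAt ℂ p 0) (hp0 : p 0 = 0) :
    ∃ (P q : ℂ → ℂ), ∃ R > 0, P 0 = 0 ∧ ContinuousOn q (ball 0 R) ∧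
      DifferentiableOn ℂ p (ball 0 R) ∧
      (∀ ζ, p ζ = ζ * q ζ) ∧ ∀ ζ ∈ ball (0 : ℂ) R, HasDerivAt P (N * q ζ) ζ := by
  obtain ⟨R, hR, hb⟩ := Metric.eventually_nhds_iff_ball.1 hp.eventually_analyticAt
  have hd : DifferentiableOn ℂ p (ball 0 R) := fun z hz =>
    (hb z hz).differentiableAt.differentiableWithinAt
  have hq : DifferentiableOn ℂ (dslope p 0) (ball 0 R) :=
    (Complex.differentiableOn_dslope (ball_mem_nhds _ hR)).2 hd
  have hq' : DifferentiableOn ℂ (fun ζ => (N : ℂ) * dslope p 0 ζ) (ball 0 R) := hq.const_mul _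
  obtain ⟨P, hP0, hP⟩ := (hq'.isExactOn_ball).with_val_at 0 0
  refine ⟨P, dslope p 0, R, hR, hP0, hq.continuousOn, hd, ?_, hP⟩
  intro ζ
  have h1 := sub_smul_dslope p 0 ζ
  rw [hp0, sub_zero, sub_zero, smul_eq_mul] at h1
  exact h1.symm

end Pool.Agent.J6H59.AC
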