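import Mathlib
import Pool.Agent.J6H59.AC.GDex1

/-!
The potential has a limit at `0`.
-/

set_option autoImplicit false

open MeasureTheory Metric Set Filter Topology Complex

namespace Pool.Agent.J6H59.AC

open Pool.Agent.J6H15.AC

/-- the property of the potential -/
def PotProp {ι : Type} (μ : Measure ℂ) (U : Set ℂ) (f : ι → ℂ → ℂ) (v : ℂ → ℝ) : Prop :=
  ∀ (a b : ℝ) (γ γ' : ℝ → ℂ) (g : ℝ → ℝ), a ≤ b → (∀ t ∈ Icc a b, γ t ∈ U) →
    (∀ t ∈ Icc a b, HasDerivWithinAt γ (γ' t) (Icc a b) t) →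
    ContinuousOn γ' (Icc a b) → ContinuousOn g (Icc a b) →
    ((∀ t ∈ Ioo a b, ∀ l ∈ Act μ U f (γ t), g t ≤ (γ' t * f l (γ t)).re) →
      ∫ t in a..b, g t ≤ v (γ b) - v (γ a)) ∧
    ((∀ t ∈ Ioo a b, ∀ l ∈ Act μ U f (γ t), (γ' t * f l (γ t)).re ≤ g t) →
      v (γ b) - v (γ a) ≤ ∫ t in a..b, g t)

theorem pot_bd {ι : Type} {μ : Measure ℂ} {U : Set ℂ} {f : ι → ℂ → ℂ} {v : ℂ → ℝ}
    (h : PotProp μ U f v) {a b : ℝ} {γ γ' : ℝ → ℂ} {g : ℝ → ℝ} (hab : a ≤ b)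
    (hγU : ∀ t ∈ Icc a b, γ t ∈ U)
    (hγ : ∀ t ∈ Icc a b, HasDerivWithinAt γ (γ' t) (Icc a b) t)
    (hγ' : ContinuousOn γ' (Icc a b)) (hg : ContinuousOn g (Icc a b))
    (hb : ∀ t ∈ Ioo a b, ∀ l, ‖γ' t * f l (γ t)‖ ≤ g t) :
    |v (γ b) - v (γ a)| ≤ ∫ t in a..b, g t := by
  rw [abs_le]
  constructor
  · have h1 := (h a b γ γ' (fun t => -g t) hab hγU hγ hγ' hg.neg).1 (by
      intro t ht l _
      have h2 := hb t ht l
      have h3 := Complex.abs_re_le_norm (γ' t * f l (γ t))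
      have h4 := (abs_le.1 h3).1
      linarith)
    rw [intervalIntegral.integral_neg] at h1
    exact h1
  · exact (h a b γ γ' g hab hγU hγ hγ' hg).2 (by
      intro t ht l _
      have h2 := hb t ht l
      have h3 := Complex.re_le_norm (γ' t * f l (γ t))
      linarith)

theorem pot_radial {ι : Type} {μ : Measure ℂ} {N : ℕ} (hN : 0 < N) {f : ι → ℂ → ℂ}
    {δ r C : ℝ} (hδ : 0 < δ) {v : ℂ → ℝ}
    (hf : ∀ i, ∀ z ∈ Sec δ r, ‖f i z‖ ≤ C * ‖z‖ ^ ((N : ℝ)⁻¹ - 1))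
    (h : PotProp μ (Sec δ r) f v) {a b : ℝ} (ha : 0 < a) (hab : a ≤ b) (hb : b < r) :
    |v (b : ℂ) - v (a : ℂ)| ≤ C * (N * (b ^ ((N : ℝ)⁻¹) - a ^ ((N : ℝ)⁻¹))) := by
  have hN0 : (0 : ℝ) < N := by exact_mod_cast hN
  have hmem : ∀ t ∈ Icc a b, (t : ℂ) ∈ Sec δ r := fun t ht =>
    real_mem_sec hδ (lt_of_lt_of_le ha ht.1) (lt_of_le_of_lt ht.2 hb)
  have h1 := pot_bd h (γ := fun t => (t : ℂ)) (γ' := fun _ => 1)
    (g := fun t => C * t ^ ((N : ℝ)⁻¹ - 1)) hab hmem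
    (fun t _ => (Complex.ofRealCLM.hasDerivAt (x := t)).hasDerivWithinAt)
    continuousOn_const
    (by
      refine continuousOn_const.mul (continuousOn_id.rpow_const ?_)
      intro t ht
      exact Or.inl (lt_of_lt_of_le ha ht.1).ne')
    (by
      intro t ht l
      have ht' := Ioo_subset_Icc_self ht
      have h2 := hf l _ (hmem t ht')
      rw [Complex.norm_real, Real.norm_eq_abs, abs_of_pos (lt_of_lt_of_le ha ht'.1)] at h2
      rw [one_mul]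
      exact h2)
  refine h1.trans (le_of_eq ?_)
  rw [intervalIntegral.integral_const_mul, integral_rpow]
  · congr 1
    rw [sub_add_cancel, div_eq_mul_inv, inv_inv, mul_comm]
  · right
    constructor
    · intro h3
      have h4 : (0 : ℝ) < (N : ℝ)⁻¹ := inv_pos.2 hN0
      linarith
    · intro h3
      rw [uIcc_of_le hab] at h3
      linarith [h3.1]

theorem pot_arc {ι : Type} {μ : Measure ℂ} {N : ℕ} {f : ι → ℂ → ℂ}
    {δ r C : ℝ} (hδ : 0 < δ) (hδ1 : δ < 1) (hC : 0 ≤ C) {v : ℂ → ℝ}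
    (hf : ∀ i, ∀ z ∈ Sec δ r, ‖f i z‖ ≤ C * ‖z‖ ^ ((N : ℝ)⁻¹ - 1))
    (h : PotProp μ (Sec δ r) f v) {z : ℂ} (hz : z ∈ Sec δ r) :
    |v z - v ((‖z‖ : ℝ) : ℂ)| ≤ C * ‖z‖ ^ ((N : ℝ)⁻¹) := by
  set s := ‖z‖ with hs
  set θ := Complex.arg z with hθ
  have hs0 : 0 < s := hz.1
  have hzz : (s : ℂ) * Complex.exp (θ * I) = z := Complex.norm_mul_exp_arg_mul_I z
  have key : ∀ a b : ℝ, -δ < a → a ≤ b → b < δ →
      |v ((s : ℂ) * Complex.exp (b * I)) - v ((s : ℂ) * Complex.exp (a * I))| ≤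
        (b - a) * (C * s ^ ((N : ℝ)⁻¹)) := by
    intro a b ha hab hb
    have hmem : ∀ t ∈ Icc a b, (s : ℂ) * Complex.exp ((t : ℝ) * I) ∈ Sec δ r := fun t ht =>
      polar_mem_sec (abs_lt.2 ⟨lt_of_lt_of_le ha ht.1, lt_of_le_of_lt ht.2 hb⟩) hδ1 hs0 hz.2.1
    have hd : ∀ t : ℝ, HasDerivAt (fun t : ℝ => (s : ℂ) * Complex.exp ((t : ℝ) * I))
        ((s : ℂ) * (Complex.exp ((t : ℝ) * I) * I)) t := by
      intro t
      have h1 : HasDerivAt (fun t : ℝ => ((t : ℝ) : ℂ) * I) (1 * I) t :=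
        (Complex.ofRealCLM.hasDerivAt (x := t)).mul_const I
      have h2 := (h1.cexp).const_mul (s : ℂ)
      rwa [one_mul] at h2
    have h1 := pot_bd h (γ := fun t => (s : ℂ) * Complex.exp ((t : ℝ) * I))
      (γ' := fun t => (s : ℂ) * (Complex.exp ((t : ℝ) * I) * I))
      (g := fun _ => C * s ^ ((N : ℝ)⁻¹)) hab hmem
      (fun t _ => (hd t).hasDerivWithinAt)
      (by fun_prop) continuousOn_const
      (by
        intro t ht l
        have h2 := hf l _ (hmem t (Ioo_subset_Icc_self ht))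
        have h3 : ‖(s : ℂ) * Complex.exp ((t : ℝ) * I)‖ = s := by
          rw [norm_mul, Complex.norm_exp_ofReal_mul_I, mul_one, Complex.norm_real,
            Real.norm_eq_abs, abs_of_pos hs0]
        rw [h3] at h2
        have h4 : ‖(s : ℂ) * (Complex.exp ((t : ℝ) * I) * I)‖ = s := by
          rw [← mul_assoc, norm_mul, h3, Complex.norm_I, mul_one]
        rw [norm_mul, h4]
        calc s * ‖f l (s * Complex.exp ((t : ℝ) * I))‖ ≤ s * (C * s ^ ((N : ℝ)⁻¹ - 1)) :=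
              mul_le_mul_of_nonneg_left h2 hs0.le
          _ = C * s ^ ((N : ℝ)⁻¹) := by
              rw [Real.rpow_sub_one hs0.ne']
              field_simp)
    refine h1.trans (le_of_eq ?_)
    rw [intervalIntegral.integral_const, smul_eq_mul]
  have hθδ := abs_lt.1 hz.2.2
  have hnn : 0 ≤ C * s ^ ((N : ℝ)⁻¹) := mul_nonneg hC (Real.rpow_nonneg hs0.le _)
  rcases le_total 0 θ with h0 | h0
  · have h1 := key 0 θ (by linarith) h0 hθδ.2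
    rw [hzz, Complex.ofReal_zero, zero_mul, Complex.exp_zero, mul_one, sub_zero] at h1
    refine h1.trans ?_
    have : θ ≤ 1 := by linarith [hθδ.2]
    nlinarith
  · have h1 := key θ 0 hθδ.1 h0 hδ
    rw [hzz, Complex.ofReal_zero, zero_mul, Complex.exp_zero, mul_one, zero_sub, abs_sub_comm] at h1
    refine h1.trans ?_
    have : -θ ≤ 1 := by linarith [hθδ.1]
    nlinarith

theorem pot_zero {ι : Type} {μ : Measure ℂ} {N : ℕ} (hN : 0 < N) {f : ι → ℂ → ℂ}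
    {δ r C : ℝ} (hδ : 0 < δ) (hδ1 : δ < 1) (hr : 0 < r) (hC : 0 ≤ C) {v : ℂ → ℝ}
    (hf : ∀ i, ∀ z ∈ Sec δ r, ‖f i z‖ ≤ C * ‖z‖ ^ ((N : ℝ)⁻¹ - 1))
    (h : PotProp μ (Sec δ r) f v) :
    ∃ L, Tendsto v (𝓝[Sec δ r] 0) (𝓝 L) := by
  have hN0 : (0 : ℝ) < N := by exact_mod_cast hN
  have hNi : (0 : ℝ) < (N : ℝ)⁻¹ := inv_pos.2 hN0
  have hne : (𝓝[Sec δ r] (0 : ℂ)).NeBot := by
    rw [← mem_closure_iff_nhdsWithin_neBot, Metric.mem_closure_iff]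
    intro ε hε
    refine ⟨((min ε r / 2 : ℝ) : ℂ), real_mem_sec hδ (by positivity) ?_, ?_⟩
    · have := min_le_right ε r
      linarith
    · rw [dist_zero_left, Complex.norm_real, Real.norm_eq_abs, abs_of_pos (by positivity)]
      have := min_le_left ε r
      linarith
  have hrad : ∀ x ∈ Ioo 0 r, ∀ y ∈ Ioo 0 r, ∀ η, x ≤ η → y ≤ η →
      |v (x : ℂ) - v (y : ℂ)| ≤ C * (N * η ^ ((N : ℝ)⁻¹)) := by
    have hw : ∀ x ∈ Ioo 0 r, ∀ y ∈ Ioo 0 r, ∀ η, x ≤ y → y ≤ η →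
      |v (y : ℂ) - v (x : ℂ)| ≤ C * (N * η ^ ((N : ℝ)⁻¹)) := by
      intro x hx y hy η hxy hyη
      refine (pot_radial hN hδ hf h hx.1 hxy hy.2).trans ?_
      refine mul_le_mul_of_nonneg_left (mul_le_mul_of_nonneg_left ?_ hN0.le) hC
      have h1 : y ^ ((N : ℝ)⁻¹) ≤ η ^ ((N : ℝ)⁻¹) := Real.rpow_le_rpow hy.1.le hyη hNi.le
      have h2 : 0 ≤ x ^ ((N : ℝ)⁻¹) := Real.rpow_nonneg hx.1.le _
      linarith
    intro x hx y hy η hxη hyη
    rcases le_total x y with h1 | h1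
    · rw [abs_sub_comm]
      exact hw x hx y hy η h1 hyη
    · exact hw y hy x hx η h1 hxη
  have hall : ∀ x ∈ Sec δ r, ∀ y ∈ Sec δ r, ∀ η, ‖x‖ ≤ η → ‖y‖ ≤ η →
      |v x - v y| ≤ (C * (N + 2)) * η ^ ((N : ℝ)⁻¹) := by
    intro x hx y hy η hxη hyη
    have h1 := pot_arc hδ hδ1 hC hf h hx
    have h2 := pot_arc hδ hδ1 hC hf h hy
    have h3 := hrad ‖x‖ ⟨hx.1, hx.2.1⟩ ‖y‖ ⟨hy.1, hy.2.1⟩ η hxη hyη
    have h4 : C * ‖x‖ ^ ((N : ℝ)⁻¹) ≤ C * η ^ ((N : ℝ)⁻¹) :=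
      mul_le_mul_of_nonneg_left (Real.rpow_le_rpow hx.1.le hxη hNi.le) hC
    have h5 : C * ‖y‖ ^ ((N : ℝ)⁻¹) ≤ C * η ^ ((N : ℝ)⁻¹) :=
      mul_le_mul_of_nonneg_left (Real.rpow_le_rpow hy.1.le hyη hNi.le) hC
    have h6 := abs_le.1 h1
    have h7 := abs_le.1 h2
    have h8 := abs_le.1 h3
    rw [abs_le]
    constructor <;> nlinarith
  have hcau : Cauchy (map v (𝓝[Sec δ r] (0 : ℂ))) := by
    rw [Metric.cauchy_iff]
    refine ⟨hne.map v, fun ε hε => ?_⟩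
    have h1 : Tendsto (fun η : ℝ => (C * (N + 2)) * η ^ ((N : ℝ)⁻¹)) (𝓝 0) (𝓝 0) := by
      have h2 : ContinuousAt (fun η : ℝ => (C * (N + 2)) * η ^ ((N : ℝ)⁻¹)) 0 :=
        continuousAt_const.mul (continuousAt_id.rpow_const (Or.inr hNi.le))
      have h3 := h2.tendsto
      rwa [Real.zero_rpow hNi.ne', mul_zero] at h3
    have h4 : ∀ᶠ η : ℝ in 𝓝[>] 0, (C * (N + 2)) * η ^ ((N : ℝ)⁻¹) < ε :=
      (h1.eventually_lt_const hε).filter_mono nhdsWithin_le_nhds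
    obtain ⟨η, h5, h6⟩ := (h4.and self_mem_nhdsWithin).exists
    have h6' : 0 < η := h6
    refine ⟨v '' (Sec δ r ∩ ball 0 η), image_mem_map (inter_mem self_mem_nhdsWithin
      (nhdsWithin_le_nhds (ball_mem_nhds _ h6'))), ?_⟩
    rintro _ ⟨x, ⟨hx, hxη⟩, rfl⟩ _ ⟨y, ⟨hy, hyη⟩, rfl⟩
    rw [mem_ball_zero_iff] at hxη hyη
    rw [Real.dist_eq]
    exact lt_of_le_of_lt (hall x hx y hy η hxη.le hyη.le) h5
  exact cauchy_map_iff_exists_tendsto.1 hcau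

end Pool.Agent.J6H59.AC
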