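import Mathlib
import Pool.Agent.J6H59.AC.GDex2
import Pool.Agent.J6H59.AC.GDex3

/-!
(P5) Existence of good data.
-/

set_option autoImplicit false

open MeasureTheory Metric Set Filter Topology Complex
open Pool.Agent.H586R3.CT (CT)

namespace Pool.Agent.J6H59.AC

open Pool.Agent.J6H15.AC

theorem existsGD : PotThm → SignLem → ExistsGD := by
  intro hPot hS ι _ μ _ N p δ r hD hp
  have hN := hD.N_pos
  have hN0 : (0 : ℝ) < N := by exact_mod_cast hN
  have hNc : (N : ℂ) ≠ 0 := by exact_mod_cast hN.ne'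
  obtain ⟨u, hu, ρ, hρ, ε, hε, hsign⟩ := exists_dir hS hD.mero hD.ne
  have hprim := fun i => exists_prim (N := N) (hp i).1 (hp i).2
  choose P q R hR hP0 hqc hpd hpq hPd using hprim
  obtain ⟨M, hM⟩ : ∃ M : ℝ, ∀ i, ‖q i 0‖ + 1 ≤ M := by
    obtain ⟨M, hM⟩ := (Set.finite_range fun i => ‖q i 0‖ + 1).bddAbove
    exact ⟨M, fun i => hM ⟨i, rfl⟩⟩
  have hev : ∀ᶠ ζ in 𝓝 (0 : ℂ), ∀ i, ζ ∈ ball (0 : ℂ) (R i) ∧ ‖q i ζ‖ ≤ M ∧
      ∀ j, i ≠ j → ζ ∈ ({0}ᶜ : Set ℂ) → p i ζ ≠ p j ζ := by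
    refine eventually_all.2 fun i => ?_
    have h1 : ∀ᶠ ζ in 𝓝 (0 : ℂ), ζ ∈ ball (0 : ℂ) (R i) := ball_mem_nhds _ (hR i)
    have h2 : ∀ᶠ ζ in 𝓝 (0 : ℂ), ‖q i ζ‖ < ‖q i 0‖ + 1 :=
      (((hqc i).continuousAt (ball_mem_nhds _ (hR i))).norm).tendsto.eventually_lt_const
        (by linarith)
    have h3 : ∀ᶠ ζ in 𝓝 (0 : ℂ), ∀ j, i ≠ j → ζ ∈ ({0}ᶜ : Set ℂ) → p i ζ ≠ p j ζ := by
      refine eventually_all.2 fun j => ?_
      by_cases hij : i = j
      · exact Eventually.of_forall fun ζ h => (h hij).elim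
      · filter_upwards [eventually_nhdsWithin_iff.1 (hD.ne i j hij)] with ζ h _
        exact h
    filter_upwards [h1, h2, h3] with ζ a b c
    exact ⟨a, b.le.trans (hM i), c⟩
  obtain ⟨e0, he0, hb⟩ := Metric.eventually_nhds_iff_ball.1 hev
  set e := min e0 ε with he
  have he1 : 0 < e := lt_min he0 hε
  set r' := min r (e ^ N) with hr'
  have hr'0 : 0 < r' := lt_min hD.r_pos (by positivity)
  set δ' := min (min δ ε) (1 / 2) with hδ'
  have hδ'0 : 0 < δ' := lt_min (lt_min hD.δ_pos hε) (by norm_num)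
  have hδ'1 : δ' < 1 := lt_of_le_of_lt (min_le_right _ _) (by norm_num)
  have hrt : ∀ z ∈ Sec δ' r', ‖rt N z‖ < e := fun z hz =>
    rt_norm_le hN (sec_ne hz) he1 (lt_of_lt_of_le hz.2.1 (min_le_right _ _))
  have hrtb : ∀ z ∈ Sec δ' r', rt N z ∈ ball (0 : ℂ) e0 := fun z hz => by
    rw [mem_ball_zero_iff]
    exact lt_of_lt_of_le (hrt z hz) (min_le_left _ _)
  have hder : ∀ i, ∀ z ∈ Sec δ' r', HasDerivAt (fun z => P i (rt N z)) (ff N p i z) z := by
    intro i z hz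
    have h1 := hPd i (rt N z) (hb _ (hrtb z hz) i).1
    have h2 := rt_deriv N (sec_slit hδ'1 hz)
    have h3 := h1.comp z h2
    have h4 : (N : ℂ) * q i (rt N z) * (rt N z * (z⁻¹ / N)) = ff N p i z := by
      unfold ff
      rw [hpq i (rt N z)]
      have hz0 := sec_ne hz
      field_simp
    rw [h4] at h3
    exact h3
  have hsys : Sys ι μ (Sec δ' r') (ff N p) := by
    refine ⟨sec_open hδ'1, ?_, ?_, ?_⟩
    · intro i z hz
      have h1 : DifferentiableAt ℂ (p i) (rt N z) :=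
        (hpd i).differentiableAt (isOpen_ball.mem_nhds (hb _ (hrtb z hz) i).1)
      have h2 := (rt_deriv N (sec_slit hδ'1 hz)).differentiableAt
      have h3 : DifferentiableAt ℂ (fun z => p i (rt N z)) z := h1.comp z h2
      exact (h3.div differentiableAt_id (sec_ne hz)).differentiableWithinAt
    · intro z hz i j hij h
      have h1 := (hb _ (hrtb z hz) i).2.2 j hij (rt_ne N z)
      apply h1
      unfold ff at h
      exact (div_left_inj' (sec_ne hz)).1 h
    · filter_upwards [hD.val] with z hz hzS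
      have h1 : z ∈ Sec δ r := sec_mono ((min_le_left _ _).trans (min_le_left _ _))
        (min_le_left _ _) hzS
      obtain ⟨i, hi⟩ := hz h1
      refine ⟨i, ?_⟩
      unfold ff
      rw [eq_div_iff (sec_ne hzS), mul_comm]
      exact hi
  obtain ⟨v0, hv0, hpot⟩ := hPot ι μ (Sec δ' r') (ff N p) hsys (sec_preconnected hr'0 hδ'1)
  have hbound : ∀ i, ∀ z ∈ Sec δ' r', ‖ff N p i z‖ ≤ (max M 0) * ‖z‖ ^ ((N : ℝ)⁻¹ - 1) := by
    intro i z hz
    have hz0 := sec_ne hz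
    unfold ff
    rw [hpq i (rt N z), norm_div, norm_mul, rt_norm hN hz0, Real.rpow_sub_one hz.1.ne',
      ← mul_div_assoc, mul_comm (max M 0)]
    refine div_le_div_of_nonneg_right ?_ hz.1.le
    exact mul_le_mul_of_nonneg_left ((hb _ (hrtb z hz) i).2.1.trans (le_max_left _ _))
      (Real.rpow_nonneg hz.1.le _)
  obtain ⟨L, hL⟩ := pot_zero hN hδ'0 hδ'1 hr'0 (le_max_right M 0) hbound
    (h := (hpot : PotProp μ (Sec δ' r') (ff N p) v0))
  refine ⟨P, δ', r', fun z => v0 z - L, u, ρ, (min_le_left _ _).trans (min_le_left _ _),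
    min_le_left _ _, ?_⟩
  refine ⟨hN, hδ'0, hδ'1, hr'0, hsys, ?_, hP0, ?_, hder, hu, hρ, ?_, hv0.sub continuousOn_const,
    ?_, ?_⟩
  · intro i
    have h1 : DifferentiableOn ℂ (P i) (ball 0 (R i)) := fun z hz =>
      (hPd i z hz).differentiableAt.differentiableWithinAt
    exact h1.analyticAt (ball_mem_nhds _ (hR i))
  · intro i j hij h
    have h1 : deriv (P i) =ᶠ[𝓝 0] deriv (P j) := EventuallyEq.deriv h
    have h2 : ∀ᶠ ζ in 𝓝[≠] (0 : ℂ), False := by
      filter_upwards [nhdsWithin_le_nhds h1, hD.ne i j hij,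
        nhdsWithin_le_nhds (ball_mem_nhds _ (hR i)), nhdsWithin_le_nhds (ball_mem_nhds _ (hR j))]
        with ζ a b c d
      apply b
      rw [(hPd i ζ c).deriv, (hPd j ζ d).deriv] at a
      rw [hpq i, hpq j, mul_left_cancel₀ hNc a]
    obtain ⟨_, h3⟩ := h2.exists
    exact h3
  · intro z hz i j hij
    refine hsign (rt N z) (norm_pos_iff.2 (rt_ne N z))
      (lt_of_lt_of_le (hrt z hz) (min_le_right _ _)) ?_ i j hij
    exact lt_of_lt_of_le (rt_arg_le hN hz) ((min_le_left _ _).trans (min_le_right _ _))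
  · have h1 := hL.sub_const L
    rwa [sub_self] at h1
  · intro a b γ γ' g hab hγU hγ hγ' hg
    have h1 := hpot a b γ γ' g hab hγU hγ hγ' hg
    have h2 : v0 (γ b) - L - (v0 (γ a) - L) = v0 (γ b) - v0 (γ a) := by ring
    rw [h2]
    exact h1

end Pool.Agent.J6H59.AC
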