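import Pool.Agent.J6H59.AC.Pot1

/-!
(PotThm) The potential of the real part of the Cauchy transform.
-/

set_option autoImplicit false

open MeasureTheory Metric Set Filter Topology Complex
open Pool.Agent.H586R3.CT (CT mo mm ep ψR ψC ep_pos tendsto_ep mo_contDiff dbar_mo_CT mm_nonneg
  locallyIntegrable_CT norm_mo_le)

namespace Pool.Agent.J6H59.AC

open Pool.Agent.J6H15.AC

variable {ι : Type} [Finite ι] {μ : Measure ℂ} [IsFiniteMeasure μ] {U : Set ℂ} {f : ι → ℂ → ℂ}

/-- the derivative of the potential is small -/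
lemma norm_omL_le (w : ℂ) : ‖omL w‖ ≤ ‖w‖ := by
  refine ContinuousLinearMap.opNorm_le_bound _ (norm_nonneg _) fun v => ?_
  rw [omL_apply, Real.norm_eq_abs]
  exact (Complex.abs_re_le_norm _).trans (norm_mul w v).le

omit [IsFiniteMeasure μ] in
/-- local Lipschitz bounds -/
lemma lip_local (hS : Sys ι μ U f) {u : ℕ → ℂ → ℝ}
    (hu : ∀ n z, HasFDerivAt (u n) (omL (mo n (CT μ) z)) z) {z : ℂ} (hz : z ∈ U) :
    ∃ ρ > 0, ball z ρ ⊆ U ∧ ∃ M : ℝ, 0 ≤ M ∧ ∀ᶠ n in atTop, ∀ w ∈ ball z ρ, ∀ w' ∈ ball z ρ,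
      |u n w' - u n w| ≤ M * ‖w' - w‖ := by
  obtain ⟨ρ, hρ, hρU⟩ := Metric.nhds_basis_closedBall.mem_iff.1 (hS.op.mem_nhds hz)
  obtain ⟨M, hM, hb⟩ := bd_compact hS (isCompact_closedBall z ρ) hρU
  refine ⟨ρ, hρ, ball_subset_closedBall.trans hρU, M, hM, ?_⟩
  filter_upwards [hb] with n hn w hw w' hw'
  have := (convex_ball z ρ).norm_image_sub_le_of_norm_hasFDerivWithin_le
    (f := u n) (f' := fun x => omL (mo n (CT μ) x)) (C := M)
    (fun x _ => (hu n x).hasFDerivWithinAt)
    (fun x hx => (norm_omL_le _).trans (hn x (ball_subset_closedBall hx))) hw hw'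
  rwa [Real.norm_eq_abs] at this

omit [IsFiniteMeasure μ] in
lemma bdd_diff (hS : Sys ι μ U f) (hU : IsPreconnected U) {u : ℕ → ℂ → ℝ}
    (hu : ∀ n z, HasFDerivAt (u n) (omL (mo n (CT μ) z)) z) {x y : ℂ} (hx : x ∈ U) (hy : y ∈ U) :
    ∃ M : ℝ, ∀ᶠ n in atTop, |u n y - u n x| ≤ M := by
  refine hU.induction₂' (fun x y => ∃ M : ℝ, ∀ᶠ n in atTop, |u n y - u n x| ≤ M) ?_ ?_ hx hy
  · intro z hz
    obtain ⟨ρ, hρ, hρU, M, hM, hb⟩ := lip_local hS hu hz
    have hball : ball z ρ ∈ 𝓝[U] z := nhdsWithin_le_nhds (ball_mem_nhds z hρ)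
    filter_upwards [hball] with w hw
    refine ⟨⟨M * ‖w - z‖, ?_⟩, ⟨M * ‖z - w‖, ?_⟩⟩
    · filter_upwards [hb] with n hn using hn z (mem_ball_self hρ) w hw
    · filter_upwards [hb] with n hn using hn w hw z (mem_ball_self hρ)
  · rintro a b c - - - ⟨M, h1⟩ ⟨M', h2⟩
    refine ⟨M' + M, ?_⟩
    filter_upwards [h1, h2] with n h3 h4
    have : u n c - u n a = (u n c - u n b) + (u n b - u n a) := by ring
    rw [this]
    exact (abs_add_le _ _).trans (add_le_add h4 h3)

/-- bounded sequences converge along an ultrafilter -/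
lemma lim_exists {a : ℕ → ℝ} (h : ∃ M : ℝ, ∀ᶠ n in atTop, |a n| ≤ M) :
    ∃ l : ℝ, Tendsto a (hyperfilter ℕ : Filter ℕ) (𝓝 l) := by
  obtain ⟨M, hM⟩ := h
  have h1 : ∀ᶠ n in (hyperfilter ℕ : Filter ℕ), a n ∈ Icc (-M) M := by
    filter_upwards [Nat.hyperfilter_le_atTop hM] with n hn using abs_le.1 hn
  obtain ⟨l, -, hl⟩ := (isCompact_Icc (a := -M) (b := M)).ultrafilter_le_nhds
    ((hyperfilter ℕ).map a) (by rw [le_principal_iff]; exact h1)
  exact ⟨l, hl⟩

/-- the pointwise inequality -/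
lemma pointwise (hS : Sys ι μ U f) (hA : ActThm) {z : ℂ} (hz : z ∈ U) (c : ℂ) (g : ℝ)
    (h : ∀ l ∈ Act μ U f z, g ≤ (c * f l z).re) {ε : ℝ} (hε : 0 < ε) :
    ∀ᶠ n in atTop, g - ε ≤ (c * mo n (CT μ) z).re := by
  obtain ⟨-, h2, h3, -⟩ := hA ι μ U f hS
  obtain ⟨ρ, hρ, hAct⟩ := h2 z hz
  have hcont : ∀ i, ∀ᶠ w in 𝓝 z, |(c * f i w).re - (c * f i z).re| < ε := by
    intro i
    have hc : ContinuousAt (fun w => (c * f i w).re) z :=
      Complex.continuous_re.continuousAt.comp
        (continuousAt_const.mul ((hS.hol i).continuousOn.continuousAt (hS.op.mem_nhds hz)))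
    have := hc.eventually (Metric.ball_mem_nhds _ hε)
    filter_upwards [this] with w hw
    rwa [Real.dist_eq] at hw
  have hall : ∀ᶠ w in 𝓝 z, ∀ i, |(c * f i w).re - (c * f i z).re| < ε :=
    Filter.eventually_all.2 hcont
  obtain ⟨ρ', hρ', hb⟩ := Metric.eventually_nhds_iff_ball.1
    (hall.and ((hS.op.eventually_mem hz).and (Metric.ball_mem_nhds z hρ)))
  have hae := h3 (ball z ρ') (Act μ U f z) isOpen_ball (fun w hw => (hb w hw).2.1)
    (fun w hw => hAct w (hb w hw).2.2)
  filter_upwards [tendsto_ep.eventually (gt_mem_nhds hρ')] with n hn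
  have key : (-c * mo n (CT μ) z).re ≤ -(g - ε) := by
    refine mo_half n (locallyIntegrable_CT μ) (-c) (-(g - ε)) z ?_
    filter_upwards [hae] with w hw hwz
    have hwb : w ∈ ball z ρ' := (mem_closedBall.1 hwz).trans_lt hn
    obtain ⟨i, hi, hwi⟩ := hw hwb
    have h4 := (abs_lt.1 ((hb w hwb).1 i)).1
    have h5 := h i hi
    rw [hwi, neg_mul, Complex.neg_re]
    linarith
  rw [neg_mul, Complex.neg_re] at key
  linarith

lemma ineq (hS : Sys ι μ U f) (hA : ActThm) {u : ℕ → ℂ → ℝ}
    (hu : ∀ n z, HasFDerivAt (u n) (omL (mo n (CT μ) z)) z) {v : ℂ → ℝ} {x0 : ℂ}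
    (hv : ∀ z ∈ U, Tendsto (fun n => u n z - u n x0) (hyperfilter ℕ : Filter ℕ) (𝓝 (v z)))
    {a b : ℝ} {γ γ' : ℝ → ℂ} {g : ℝ → ℝ} (hab : a ≤ b) (hγU : ∀ t ∈ Icc a b, γ t ∈ U)
    (hγ : ∀ t ∈ Icc a b, HasDerivWithinAt γ (γ' t) (Icc a b) t)
    (hγ' : ContinuousOn γ' (Icc a b)) (hg : ContinuousOn g (Icc a b)) (σ : ℝ)
    (h : ∀ t ∈ Ioo a b, ∀ l ∈ Act μ U f (γ t), g t ≤ σ * (γ' t * f l (γ t)).re) :
    ∫ t in a..b, g t ≤ σ * (v (γ b) - v (γ a)) := by
  set F : ℕ → ℝ → ℝ := fun n t => σ * (γ' t * mo n (CT μ) (γ t)).re with hF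
  have hγc : ContinuousOn γ (Icc a b) := fun t ht => (hγ t ht).continuousWithinAt
  have hWc : ∀ n, Continuous (mo n (CT μ)) := fun n =>
    (mo_contDiff n (locallyIntegrable_CT μ)).continuous
  have hRc : ∀ n, ContinuousOn (fun t => (γ' t * mo n (CT μ) (γ t)).re) (Icc a b) := fun n =>
    Complex.continuous_re.comp_continuousOn (hγ'.mul ((hWc n).comp_continuousOn hγc))
  have hFc : ∀ n, ContinuousOn (F n) (Icc a b) := fun n => continuousOn_const.mul (hRc n)
  have hFTC : ∀ n, ∫ t in a..b, F n t = σ * (u n (γ b) - u n (γ a)) := by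
    intro n
    have h1 : ∫ t in a..b, (γ' t * mo n (CT μ) (γ t)).re = u n (γ b) - u n (γ a) := by
      refine intervalIntegral.integral_eq_sub_of_hasDerivAt_of_le (f := fun t => u n (γ t)) hab
        ?_ ?_ ?_
      · have huc : Continuous (u n) := continuous_iff_continuousAt.2 fun z => (hu n z).continuousAt
        exact huc.comp_continuousOn hγc
      · intro t ht
        have h2 : HasDerivAt γ (γ' t) t :=
          (hγ t (Ioo_subset_Icc_self ht)).hasDerivAt (Icc_mem_nhds ht.1 ht.2)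
        have h3 := (hu n (γ t)).comp_hasDerivAt t h2
        have h4 : omL (mo n (CT μ) (γ t)) (γ' t) = (γ' t * mo n (CT μ) (γ t)).re := by
          rw [omL_apply, mul_comm]
        rw [h4] at h3
        exact h3
      · exact (hRc n).intervalIntegrable_of_Icc hab
    rw [← h1, ← intervalIntegral.integral_const_mul]
  obtain ⟨M, hM, hbd⟩ := bd_compact hS (isCompact_Icc.image_of_continuousOn hγc)
    (by rintro _ ⟨t, ht, rfl⟩; exact hγU t ht)
  obtain ⟨G, hG⟩ := isCompact_Icc.exists_bound_of_continuousOn hγ'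
  obtain ⟨G', hG'⟩ := isCompact_Icc.exists_bound_of_continuousOn hg
  set H : ℕ → ℝ → ℝ := fun n t => min (F n t) (g t) with hH
  have hHc : ∀ n, ContinuousOn (H n) (Icc a b) := fun n =>
    ContinuousOn.inf (hFc n) hg
  have hHlim : Tendsto (fun n => ∫ t in a..b, H n t) atTop (𝓝 (∫ t in a..b, g t)) := by
    refine intervalIntegral.tendsto_integral_filter_of_dominated_convergence
      (fun _ => |σ| * (G * M) + G') ?_ ?_ intervalIntegrable_const ?_
    · refine Eventually.of_forall fun n => ?_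
      rw [uIoc_of_le hab]
      exact ((hHc n).mono Ioc_subset_Icc_self).aestronglyMeasurable measurableSet_Ioc
    · filter_upwards [hbd] with n hn
      refine Eventually.of_forall fun t ht => ?_
      have ht' : t ∈ Icc a b := by
        rw [uIoc_of_le hab] at ht
        exact Ioc_subset_Icc_self ht
      have e1 : |F n t| ≤ |σ| * (G * M) := by
        rw [hF]
        simp only
        rw [abs_mul]
        refine mul_le_mul_of_nonneg_left ?_ (abs_nonneg _)
        refine (Complex.abs_re_le_norm _).trans ?_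
        rw [norm_mul]
        exact mul_le_mul (hG t ht') (hn _ (mem_image_of_mem γ ht')) (norm_nonneg _)
          ((norm_nonneg _).trans (hG t ht'))
      have e2 : |g t| ≤ G' := hG' t ht'
      rw [Real.norm_eq_abs, hH]
      simp only
      rw [abs_le] at e1 e2 ⊢
      constructor
      · refine le_min ?_ ?_ <;> linarith [e1.1, e2.1, e1.2, e2.2]
      · refine (min_le_right _ _).trans ?_
        linarith [e1.1, e2.1, e1.2, e2.2]
    · have hne : ∀ᵐ t : ℝ, t ≠ b := by
        rw [ae_iff]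
        simp
      filter_upwards [hne] with t htb ht
      rw [uIoc_of_le hab] at ht
      have htI : t ∈ Ioo a b := ⟨ht.1, lt_of_le_of_ne ht.2 htb⟩
      rw [tendsto_order]
      constructor
      · intro a' ha'
        have hpt := pointwise hS hA (hγU t (Ioo_subset_Icc_self htI)) ((σ : ℂ) * γ' t) (g t)
          (fun l hl => by
            have := h t htI l hl
            rwa [mul_assoc, Complex.re_ofReal_mul]) (show 0 < (g t - a') / 2 by linarith)
        filter_upwards [hpt] with n hn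
        rw [mul_assoc, Complex.re_ofReal_mul] at hn
        rw [hH]
        simp only
        refine lt_min ?_ ha'
        change a' < σ * (γ' t * mo n (CT μ) (γ t)).re
        linarith
      · intro a' ha'
        exact Eventually.of_forall fun n => (min_le_right _ _).trans_lt ha'
  have hle : ∀ n, ∫ t in a..b, H n t ≤ σ * (u n (γ b) - u n (γ a)) := by
    intro n
    rw [← hFTC n]
    exact intervalIntegral.integral_mono_on hab ((hHc n).intervalIntegrable_of_Icc hab)
      ((hFc n).intervalIntegrable_of_Icc hab) (fun t _ => min_le_left _ _)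
  have hlim2 : Tendsto (fun n => σ * (u n (γ b) - u n (γ a))) (hyperfilter ℕ : Filter ℕ)
      (𝓝 (σ * (v (γ b) - v (γ a)))) := by
    have h1 := hv _ (hγU b (right_mem_Icc.2 hab))
    have h2 := hv _ (hγU a (left_mem_Icc.2 hab))
    refine ((h1.sub h2).const_mul σ).congr fun n => ?_
    ring
  exact le_of_tendsto_of_tendsto' (hHlim.mono_left Nat.hyperfilter_le_atTop) hlim2 hle

theorem potThm : ActThm → PotThm := by
  intro hA ι _ μ _ U f hS hU
  rcases U.eq_empty_or_nonempty with hUe | ⟨x0, hx0⟩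
  · refine ⟨fun _ => 0, continuousOn_const, ?_⟩
    intro a b γ γ' g hab hγU
    have := hγU a (left_mem_Icc.2 hab)
    rw [hUe] at this
    exact absurd this (notMem_empty _)
  choose u hu using fun n => exists_pot μ n
  have hlim : ∀ z ∈ U, ∃ l : ℝ, Tendsto (fun n => u n z - u n x0) (hyperfilter ℕ : Filter ℕ)
      (𝓝 l) := fun z hz => lim_exists (bdd_diff hS hU hu hx0 hz)
  classical
  set v : ℂ → ℝ := fun z => if hz : z ∈ U then (hlim z hz).choose else 0 with hvdef
  have hv : ∀ z ∈ U, Tendsto (fun n => u n z - u n x0) (hyperfilter ℕ : Filter ℕ) (𝓝 (v z)) := by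
    intro z hz
    have := (hlim z hz).choose_spec
    rw [hvdef]
    simp only [hz, dif_pos]
    exact this
  refine ⟨v, ?_, ?_⟩
  · intro z hz
    refine ContinuousAt.continuousWithinAt ?_
    obtain ⟨ρ, hρ, hρU, M, hM, hb⟩ := lip_local hS hu hz
    have hlip : ∀ w ∈ ball z ρ, |v w - v z| ≤ M * ‖w - z‖ := by
      intro w hw
      have h1 := ((hv w (hρU hw)).sub (hv z hz)).abs
      refine le_of_tendsto h1 ?_
      filter_upwards [Nat.hyperfilter_le_atTop hb] with n hn
      have h2 := hn z (mem_ball_self hρ) w hw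
      rwa [sub_sub_sub_cancel_right]
    rw [ContinuousAt, tendsto_iff_norm_sub_tendsto_zero]
    have h3 : Tendsto (fun w => M * ‖w - z‖) (𝓝 z) (𝓝 0) := by
      have : ContinuousAt (fun w => M * ‖w - z‖) z := by fun_prop
      have := this.tendsto
      simpa using this
    refine tendsto_of_tendsto_of_tendsto_of_le_of_le' tendsto_const_nhds h3
      (Eventually.of_forall fun _ => norm_nonneg _) ?_
    filter_upwards [ball_mem_nhds z hρ] with w hw
    rw [Real.norm_eq_abs]
    exact hlip w hw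
  · intro a b γ γ' g hab hγU hγ hγ' hg
    constructor
    · intro h
      have := ineq hS hA hu hv hab hγU hγ hγ' hg 1 (fun t ht l hl => by
        rw [one_mul]; exact h t ht l hl)
      rwa [one_mul] at this
    · intro h
      have := ineq hS hA hu hv hab hγU hγ hγ' hg.neg (-1) (fun t ht l hl => by
        have := h t ht l hl
        rw [neg_one_mul]
        exact neg_le_neg this)
      have e : ∫ t in a..b, (-g) t = -∫ t in a..b, g t := by
        rw [← intervalIntegral.integral_neg]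
        rfl
      rw [e] at this
      linarith

end Pool.Agent.J6H59.AC
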