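import Pool.Agent.J6H15.AC.Defs2

/-!
Potentials of the mollified Cauchy transform.
-/

set_option autoImplicit false

open MeasureTheory Metric Set Filter Topology Complex
open Pool.Agent.H586R3.CT (CT mo mm ep ψR ψC ep_pos tendsto_ep mo_contDiff dbar_mo_CT mm_nonneg
  locallyIntegrable_CT norm_mo_le)
open Pool.Agent.Split938 (dbar)

namespace Pool.Agent.J6H59.AC

open Pool.Agent.J6H15.AC

/-- `w ↦ (v ↦ Re (w v))` -/
noncomputable def omL : ℂ →L[ℝ] ℂ →L[ℝ] ℝ :=
  (ContinuousLinearMap.compL ℝ ℂ ℂ ℝ Complex.reCLM).comp (ContinuousLinearMap.mul ℝ ℂ)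

lemma omL_apply (w v : ℂ) : omL w v = (w * v).re := rfl

lemma symm_of_real (A : ℂ →L[ℝ] ℂ) (h : ((A 1 + I * A I) / 2).im = 0) (x y : ℂ) :
    (A x * y).re = (A y * x).re := by
  have hA : ∀ u : ℂ, A u = (u.re : ℂ) * A 1 + (u.im : ℂ) * A I := by
    intro u
    conv_lhs => rw [show u = (u.re : ℝ) • (1 : ℂ) + (u.im : ℝ) • I by
      rw [Complex.real_smul, Complex.real_smul, mul_one, Complex.re_add_im]]
    rw [map_add, map_smul, map_smul, Complex.real_smul, Complex.real_smul]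
  rw [hA x, hA y]
  have h2 : (A 1).im + (A I).re = 0 := by
    have e : ((A 1 + I * A I) / 2).im = ((A 1).im + (A I).re) / 2 := by
      rw [Complex.div_im]
      simp
      ring
    rw [e] at h
    linarith
  simp [Complex.mul_re, Complex.add_re]
  linear_combination (x.re * y.im - x.im * y.re) * (-1) * h2

/-- the potential of the mollification -/
lemma exists_pot (μ : Measure ℂ) [IsFiniteMeasure μ] (n : ℕ) :
    ∃ u : ℂ → ℝ, ∀ z, HasFDerivAt u (omL (mo n (CT μ) z)) z := by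
  have hW : ContDiff ℝ 1 (mo n (CT μ)) := mo_contDiff n (locallyIntegrable_CT μ)
  have hd : ∀ z, DifferentiableAt ℝ (mo n (CT μ)) z := fun z =>
    (hW.differentiable (by norm_num)) z
  obtain ⟨u, hu⟩ := (convex_univ (𝕜 := ℝ) (E := ℂ)).exists_forall_hasFDerivWithinAt_of_hasFDerivWithinAt_symmetric
    (ω := fun z => omL (mo n (CT μ) z)) (dω := fun z => omL.comp (fderiv ℝ (mo n (CT μ)) z))
    (fun z _ => (omL.hasFDerivAt.comp z (hd z).hasFDerivAt).hasFDerivWithinAt)
    (by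
      intro z _ x _ y _
      change (fderiv ℝ (mo n (CT μ)) z x * y).re = (fderiv ℝ (mo n (CT μ)) z y * x).re
      refine symm_of_real _ ?_ x y
      have := dbar_mo_CT n μ z
      unfold dbar at this
      rw [this, Complex.ofReal_im])
  exact ⟨u, fun z => (hu z (mem_univ z)).hasFDerivAt univ_mem⟩

variable {ι : Type} [Finite ι] {μ : Measure ℂ} [IsFiniteMeasure μ] {U : Set ℂ} {f : ι → ℂ → ℂ}

omit [IsFiniteMeasure μ] in
lemma bd_compact (hS : Sys ι μ U f) {K : Set ℂ} (hK : IsCompact K) (hKU : K ⊆ U) :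
    ∃ M : ℝ, 0 ≤ M ∧ ∀ᶠ n in atTop, ∀ z ∈ K, ‖mo n (CT μ) z‖ ≤ M := by
  obtain ⟨δ, hδ, hδU⟩ := hK.exists_cthickening_subset_open hS.op hKU
  have hKc : IsCompact (cthickening δ K) := hK.cthickening
  have h1 : ∀ i, ∃ C : ℝ, ∀ x ∈ cthickening δ K, ‖f i x‖ ≤ C := fun i =>
    hKc.exists_bound_of_continuousOn ((hS.hol i).continuousOn.mono hδU)
  choose C hC using h1
  obtain ⟨M, hM⟩ := (Set.finite_range C).bddAbove
  refine ⟨max M 0, le_max_right _ _, ?_⟩
  filter_upwards [tendsto_ep.eventually (gt_mem_nhds hδ)] with n hn z hz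
  refine norm_mo_le n (le_max_right _ _) z ?_
  filter_upwards [hS.val] with w hw hwz
  have hwK : w ∈ cthickening δ K := by
    refine mem_cthickening_of_dist_le w z δ K hz ?_
    exact (mem_closedBall.1 hwz).trans hn.le
  obtain ⟨i, hi⟩ := hw (hδU hwK)
  rw [hi]
  exact (hC i w hwK).trans ((hM (mem_range_self i)).trans (le_max_left _ _))

end Pool.Agent.J6H59.AC
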